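import Pool.Agent.Helper38.Curl.ApiL

open MeasureTheory Set Filter Topology Metric
open scoped ContDiff RealInnerProductSpace

namespace Pool.Agent.Helper38.Curl

/-! ## Square integrals on sets -/

theorem sqOn_eq_sq {S : Set E} (hS : MeasurableSet S) (v : E → E) :
    sqOn S v = sq (S.indicator v) := by
  unfold sq sqOn
  rw [← integral_indicator hS]
  congr 1
  ext x
  by_cases hc : x ∈ S <;> simp [hc]

theorem memLp_ind {S : Set E} (hS : MeasurableSet S) {v : E → E}
    (hv : MemLp v 2 (volume.restrict S)) : MemLp (S.indicator v) 2 :=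
  (memLp_indicator_iff_restrict hS).2 hv

theorem vanOff_ind (S : Set E) (v : E → E) : VanOff S (S.indicator v) :=
  Eventually.of_forall fun x hx => by simp [hx]

theorem integrableOn_norm_sq {S : Set E} {v : E → E} (hv : MemLp v 2 (volume.restrict S)) :
    IntegrableOn (fun x => ‖v x‖ ^ 2) S := hv.integrable_norm_pow (by norm_num)

theorem sqOn_mono {S T : Set E} (hST : S ⊆ T) {v : E → E} (hv : MemLp v 2 (volume.restrict T)) :
    sqOn S v ≤ sqOn T v :=
  setIntegral_mono_set (integrableOn_norm_sq hv) (Eventually.of_forall fun x => by positivity)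
    (Eventually.of_forall fun x hx => hST hx)

theorem sqrt_sqOn_add_le {S : Set E} (hS : MeasurableSet S) {v w : E → E}
    (hv : MemLp v 2 (volume.restrict S)) (hw : MemLp w 2 (volume.restrict S)) :
    √(sqOn S (fun x => v x + w x)) ≤ √(sqOn S v) + √(sqOn S w) := by
  rw [sqOn_eq_sq hS, sqOn_eq_sq hS v, sqOn_eq_sq hS w]
  have h : S.indicator (fun x => v x + w x) = fun x => S.indicator v x + S.indicator w x := by
    ext x
    by_cases hc : x ∈ S <;> simp [hc]
  rw [h]
  exact sqrt_sq_add_le (memLp_ind hS hv) (memLp_ind hS hw)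

theorem sqrt_sqOn_sub_le {S : Set E} (hS : MeasurableSet S) {v w : E → E}
    (hv : MemLp v 2 (volume.restrict S)) (hw : MemLp w 2 (volume.restrict S)) :
    √(sqOn S (fun x => v x - w x)) ≤ √(sqOn S v) + √(sqOn S w) := by
  rw [sqOn_eq_sq hS, sqOn_eq_sq hS v, sqOn_eq_sq hS w]
  have h : S.indicator (fun x => v x - w x) = fun x => S.indicator v x - S.indicator w x := by
    ext x
    by_cases hc : x ∈ S <;> simp [hc]
  rw [h]
  exact sqrt_sq_sub_le (memLp_ind hS hv) (memLp_ind hS hw)

theorem sqOn_smul (S : Set E) (c : ℝ) (v : E → E) : sqOn S (fun x => c • v x) = c ^ 2 * sqOn S v := by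
  unfold sqOn
  rw [← integral_const_mul]
  congr 1
  ext x
  rw [norm_smul, mul_pow, Real.norm_eq_abs, sq_abs]

theorem sqOn_congr {S : Set E} (hS : MeasurableSet S) {v w : E → E}
    (h : ∀ᵐ x, x ∈ S → v x = w x) : sqOn S v = sqOn S w := by
  unfold sqOn
  apply setIntegral_congr_ae hS
  filter_upwards [h] with x hx hxS
  rw [hx hxS]

theorem WkTo.comp {v : ℕ → E → E} {V : E → E} (h : WkTo v V) {σ : ℕ → ℕ} (hσ : StrictMono σ) :
    WkTo (fun n => v (σ n)) V := fun φ hφ hb => (h φ hφ hb).comp hσ.tendsto_atTop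

theorem Sol.mono {C D : Set E} {v : E → E} (h : Sol C v) (hCD : C ⊆ D) : Sol D v :=
  ⟨h.memLp, h.van.mono hCD, h.divFree⟩

theorem Sol.add {C : Set E} {v w : E → E} (h : Sol C v) (h' : Sol C w) :
    Sol C (fun x => v x + w x) := by
  refine ⟨h.memLp.add h'.memLp, h.van.add h'.van, fun η hη => ?_⟩
  have h1 : ∀ x, fderiv ℝ η x (v x + w x) = ⟪gradient η x, v x⟫ + ⟪gradient η x, w x⟫ := by
    intro x
    rw [← inner_gradient, inner_add_right]
  simp only [h1]
  rw [integral_add (integrable_inner hη.gradient.memLp h.memLp)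
    (integrable_inner hη.gradient.memLp h'.memLp)]
  simp only [inner_gradient]
  rw [h.divFree η hη, h'.divFree η hη, add_zero]

theorem Sol.smul {C : Set E} {v : E → E} (h : Sol C v) (c : ℝ) : Sol C (fun x => c • v x) := by
  refine ⟨h.memLp.const_smul c, h.van.smul c, fun η hη => ?_⟩
  simp only [map_smul, smul_eq_mul]
  rw [integral_const_mul, h.divFree η hη, mul_zero]

theorem divFree_iff {v : E → E} :
    (∀ η, TestF η → ∫ x, fderiv ℝ η x (v x) = 0) ↔ ∀ η, TestF η → ip v (gradient η) = 0 := by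
  have h : ∀ η : E → ℝ, ∫ x, fderiv ℝ η x (v x) = ip v (gradient η) := by
    intro η
    rw [ip_comm]
    unfold ip
    simp only [inner_gradient]
  simp only [h]

end Pool.Agent.Helper38.Curl
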