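import Pool.Agent.Helper38.Curl.Defs

open MeasureTheory Set Filter Topology Metric
open scoped ContDiff RealInnerProductSpace

namespace Pool.Agent.Helper38.Curl

/-! ## Pointwise algebra -/

@[simp] theorem cr_apply_zero (a b : E) : cr a b 0 = a 1 * b 2 - a 2 * b 1 := by simp [cr]
@[simp] theorem cr_apply_one (a b : E) : cr a b 1 = a 2 * b 0 - a 0 * b 2 := by simp [cr]
@[simp] theorem cr_apply_two (a b : E) : cr a b 2 = a 0 * b 1 - a 1 * b 0 := by simp [cr]

theorem inner_eq (a b : E) : ⟪a, b⟫ = a 0 * b 0 + a 1 * b 1 + a 2 * b 2 := by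
  rw [PiLp.inner_apply, Fin.sum_univ_three]
  simp only [RCLike.inner_apply, conj_trivial]
  ring

theorem norm_sq_eq (a : E) : ‖a‖ ^ 2 = a 0 ^ 2 + a 1 ^ 2 + a 2 ^ 2 := by
  rw [← real_inner_self_eq_norm_sq, inner_eq]; ring

theorem ext3 {a b : E} (h0 : a 0 = b 0) (h1 : a 1 = b 1) (h2 : a 2 = b 2) : a = b := by
  ext i; fin_cases i
  · exact h0
  · exact h1
  · exact h2

theorem cr_self (a : E) : cr a a = 0 := by
  apply ext3 <;> simp <;> ring

theorem cr_comm (a b : E) : cr a b = - cr b a := by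
  apply ext3 <;> simp <;> ring

theorem cr_add_left (a b c : E) : cr (a + b) c = cr a c + cr b c := by
  apply ext3 <;> simp <;> ring

theorem cr_add_right (a b c : E) : cr a (b + c) = cr a b + cr a c := by
  apply ext3 <;> simp <;> ring

theorem cr_smul_left (t : ℝ) (a b : E) : cr (t • a) b = t • cr a b := by
  apply ext3 <;> simp <;> ring

theorem cr_smul_right (t : ℝ) (a b : E) : cr a (t • b) = t • cr a b := by
  apply ext3 <;> simp <;> ring

theorem cr_sub_left (a b c : E) : cr (a - b) c = cr a c - cr b c := by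
  apply ext3 <;> simp <;> ring

theorem cr_sub_right (a b c : E) : cr a (b - c) = cr a b - cr a c := by
  apply ext3 <;> simp <;> ring

@[simp] theorem cr_zero_left (a : E) : cr 0 a = 0 := by apply ext3 <;> simp

@[simp] theorem cr_zero_right (a : E) : cr a 0 = 0 := by apply ext3 <;> simp

/-- The triple product is cyclic. -/
theorem inner_cr (a b c : E) : ⟪cr a b, c⟫ = ⟪a, cr b c⟫ := by
  rw [inner_eq, inner_eq]; simp; ring

theorem norm_cr_le (a b : E) : ‖cr a b‖ ≤ ‖a‖ * ‖b‖ := by
  apply le_of_sq_le_sq _ (by positivity)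
  rw [mul_pow, norm_sq_eq, norm_sq_eq, norm_sq_eq]
  simp
  nlinarith [sq_nonneg (a 0 * b 0 + a 1 * b 1 + a 2 * b 2)]

/-! ## The curl -/

theorem curl_apply_zero (A : E → E) (x : E) : curl A x 0 = pd A 1 2 x - pd A 2 1 x := by simp [curl]
theorem curl_apply_one (A : E → E) (x : E) : curl A x 1 = pd A 2 0 x - pd A 0 2 x := by simp [curl]
theorem curl_apply_two (A : E → E) (x : E) : curl A x 2 = pd A 0 1 x - pd A 1 0 x := by simp [curl]

theorem eq_sum_bv (w : E) : w = w 0 • bv 0 + w 1 • bv 1 + w 2 • bv 2 := by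
  apply ext3 <;> simp [bv]

/-- The antisymmetric part of the derivative is given by the curl. -/
theorem inner_fderiv_sub (A : E → E) (x w v : E) :
    ⟪fderiv ℝ A x w, v⟫ - ⟪fderiv ℝ A x v, w⟫ = ⟪curl A x, cr w v⟫ := by
  have hw : fderiv ℝ A x w
      = w 0 • fderiv ℝ A x (bv 0) + w 1 • fderiv ℝ A x (bv 1) + w 2 • fderiv ℝ A x (bv 2) := by
    conv_lhs => rw [eq_sum_bv w]
    simp only [map_add, map_smul]
  have hv : fderiv ℝ A x v
      = v 0 • fderiv ℝ A x (bv 0) + v 1 • fderiv ℝ A x (bv 1) + v 2 • fderiv ℝ A x (bv 2) := by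
    conv_lhs => rw [eq_sum_bv v]
    simp only [map_add, map_smul]
  rw [hw, hv, inner_eq, inner_eq, inner_eq]
  simp only [curl_apply_zero, curl_apply_one, curl_apply_two, cr_apply_zero, cr_apply_one,
    cr_apply_two, pd, PiLp.add_apply, PiLp.smul_apply, smul_eq_mul]
  ring

theorem pd_add {A B : E → E} {x : E} (hA : DifferentiableAt ℝ A x) (hB : DifferentiableAt ℝ B x)
    (i j : Fin 3) : pd (fun y => A y + B y) i j x = pd A i j x + pd B i j x := by
  unfold pd
  rw [fderiv_fun_add hA hB]; simp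

theorem pd_const_smul {A : E → E} {x : E} (hA : DifferentiableAt ℝ A x) (c : ℝ) (i j : Fin 3) :
    pd (fun y => c • A y) i j x = c * pd A i j x := by
  unfold pd
  rw [fderiv_fun_const_smul hA]; simp

theorem curl_add {A B : E → E} {x : E} (hA : DifferentiableAt ℝ A x)
    (hB : DifferentiableAt ℝ B x) : curl (fun y => A y + B y) x = curl A x + curl B x := by
  apply ext3 <;>
    simp only [curl_apply_zero, curl_apply_one, curl_apply_two, pd_add hA hB, PiLp.add_apply] <;>
    ring

theorem curl_const_smul {A : E → E} {x : E} (hA : DifferentiableAt ℝ A x) (c : ℝ) :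
    curl (fun y => c • A y) x = c • curl A x := by
  apply ext3 <;>
    simp only [curl_apply_zero, curl_apply_one, curl_apply_two, pd_const_smul hA, PiLp.smul_apply,
      smul_eq_mul] <;>
    ring

theorem inner_gradient (η : E → ℝ) (x v : E) : ⟪gradient η x, v⟫ = fderiv ℝ η x v := by
  simp [gradient]

theorem gradient_apply (η : E → ℝ) (x : E) (i : Fin 3) : gradient η x i = fderiv ℝ η x (bv i) := by
  rw [← inner_gradient, inner_eq]
  fin_cases i <;> simp [bv]

theorem pd_smul {ζ : E → ℝ} {A : E → E} {x : E} (hζ : DifferentiableAt ℝ ζ x)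
    (hA : DifferentiableAt ℝ A x) (i j : Fin 3) :
    pd (fun y => ζ y • A y) i j x = ζ x * pd A i j x + gradient ζ x i * A x j := by
  unfold pd
  rw [fderiv_fun_smul hζ hA, gradient_apply]; simp

theorem curl_smul {ζ : E → ℝ} {A : E → E} {x : E} (hζ : DifferentiableAt ℝ ζ x)
    (hA : DifferentiableAt ℝ A x) :
    curl (fun y => ζ y • A y) x = ζ x • curl A x + cr (gradient ζ x) (A x) := by
  apply ext3 <;>
    simp only [curl_apply_zero, curl_apply_one, curl_apply_two, pd_smul hζ hA, PiLp.smul_apply,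
      PiLp.add_apply, smul_eq_mul, cr_apply_zero, cr_apply_one, cr_apply_two] <;>
    ring

theorem continuous_gradient {η : E → ℝ} (h : ContDiff ℝ ∞ η) : ContDiff ℝ ∞ (gradient η) := by
  unfold gradient
  exact (InnerProductSpace.toDual ℝ E).symm.contDiff.comp (h.fderiv_right (by simp))

theorem pd_gradient {η : E → ℝ} (h : ContDiff ℝ ∞ η) (i j : Fin 3) (x : E) :
    pd (gradient η) i j x = fderiv ℝ (fderiv ℝ η) x (bv i) (bv j) := by
  unfold pd
  have h1 : ∀ w : E, fderiv ℝ (gradient η) x w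
      = (InnerProductSpace.toDual ℝ E).symm (fderiv ℝ (fderiv ℝ η) x w) := by
    intro w
    have hd : DifferentiableAt ℝ (fderiv ℝ η) x :=
      ((h.fderiv_right (m := ∞) (by simp)).differentiable (by simp)).differentiableAt
    have : gradient η = fun y => (InnerProductSpace.toDual ℝ E).symm (fderiv ℝ η y) := rfl
    rw [this]
    have h2 := ((InnerProductSpace.toDual ℝ E).symm.toContinuousLinearEquiv
      |>.toContinuousLinearMap.hasFDerivAt (x := fderiv ℝ η x)).comp x hd.hasFDerivAt
    have h3 := h2.fderiv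
    have h4 : fderiv ℝ (fun y => (InnerProductSpace.toDual ℝ E).symm (fderiv ℝ η y)) x
      = _ := h3
    rw [h4]; rfl
  rw [h1]
  have h5 : ∀ (ℓ : E →L[ℝ] ℝ), ((InnerProductSpace.toDual ℝ E).symm ℓ) j = ℓ (bv j) := by
    intro ℓ
    rw [← InnerProductSpace.toDual_symm_apply (𝕜 := ℝ), inner_eq]
    fin_cases j <;> simp [bv]
  exact h5 _

/-- The curl of a gradient vanishes. -/
theorem curl_gradient {η : E → ℝ} (h : ContDiff ℝ ∞ η) (x : E) : curl (gradient η) x = 0 := by
  have hs : ∀ v w, fderiv ℝ (fderiv ℝ η) x v w = fderiv ℝ (fderiv ℝ η) x w v := by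
    intro v w
    refine (h.contDiffAt.isSymmSndFDerivAt ?_).eq v w
    simp only [minSmoothness_of_isRCLikeNormedField]
    exact WithTop.coe_le_coe.2 (le_top : (2 : ℕ∞) ≤ ⊤)
  apply ext3 <;>
    simp only [curl_apply_zero, curl_apply_one, curl_apply_two, pd_gradient h, PiLp.zero_apply,
      sub_eq_zero] <;> exact hs _ _

end Pool.Agent.Helper38.Curl
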