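import Pool.Agent.Helper38.Curl.Api

open MeasureTheory Set Filter Topology Metric
open scoped ContDiff RealInnerProductSpace

namespace Pool.Agent.Helper38.Curl

/-! ## The inner product of square integrable fields -/

theorem integrable_inner {v w : E → E} (hv : MemLp v 2) (hw : MemLp w 2) :
    Integrable (fun x => ⟪v x, w x⟫) := by
  have h := L2.integrable_inner (𝕜 := ℝ) (hv.toLp v) (hw.toLp w)
  refine h.congr ?_
  filter_upwards [hv.coeFn_toLp, hw.coeFn_toLp] with x h1 h2
  rw [h1, h2]

theorem integrable_norm_sq {v : E → E} (hv : MemLp v 2) : Integrable (fun x => ‖v x‖ ^ 2) := by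
  have := integrable_inner hv hv
  simpa [real_inner_self_eq_norm_sq] using this

theorem ip_eq_inner {v w : E → E} (hv : MemLp v 2) (hw : MemLp w 2) :
    ip v w = ⟪hv.toLp v, hw.toLp w⟫ := by
  rw [L2.inner_def]
  apply integral_congr_ae
  filter_upwards [hv.coeFn_toLp, hw.coeFn_toLp] with x h1 h2
  rw [h1, h2]

theorem sq_eq_ip (v : E → E) : sq v = ip v v := by
  unfold sq ip
  simp only [real_inner_self_eq_norm_sq]

theorem sq_eq_norm {v : E → E} (hv : MemLp v 2) : sq v = ‖hv.toLp v‖ ^ 2 := by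
  rw [sq_eq_ip, ip_eq_inner hv hv, real_inner_self_eq_norm_sq]

theorem sq_nonneg' (v : E → E) : 0 ≤ sq v := integral_nonneg fun _ => by positivity

theorem sqOn_nonneg (S : Set E) (v : E → E) : 0 ≤ sqOn S v := integral_nonneg fun _ => by positivity

theorem sqrt_sq_eq_norm {v : E → E} (hv : MemLp v 2) : √(sq v) = ‖hv.toLp v‖ := by
  rw [sq_eq_norm hv, Real.sqrt_sq (norm_nonneg _)]

theorem ip_comm (v w : E → E) : ip v w = ip w v := by
  unfold ip
  simp only [real_inner_comm]

theorem abs_ip_le {v w : E → E} (hv : MemLp v 2) (hw : MemLp w 2) :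
    |ip v w| ≤ √(sq v) * √(sq w) := by
  rw [ip_eq_inner hv hw, sqrt_sq_eq_norm hv, sqrt_sq_eq_norm hw]
  exact abs_real_inner_le_norm _ _

theorem ip_add_left {v v' w : E → E} (hv : MemLp v 2) (hv' : MemLp v' 2) (hw : MemLp w 2) :
    ip (fun x => v x + v' x) w = ip v w + ip v' w := by
  unfold ip
  rw [← integral_add (integrable_inner hv hw) (integrable_inner hv' hw)]
  simp only [inner_add_left]

theorem ip_add_right {v w w' : E → E} (hv : MemLp v 2) (hw : MemLp w 2) (hw' : MemLp w' 2) :
    ip v (fun x => w x + w' x) = ip v w + ip v w' := by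
  rw [ip_comm, ip_add_left hw hw' hv, ip_comm w, ip_comm w']

theorem ip_sub_left {v v' w : E → E} (hv : MemLp v 2) (hv' : MemLp v' 2) (hw : MemLp w 2) :
    ip (fun x => v x - v' x) w = ip v w - ip v' w := by
  unfold ip
  rw [← integral_sub (integrable_inner hv hw) (integrable_inner hv' hw)]
  simp only [inner_sub_left]

theorem ip_sub_right {v w w' : E → E} (hv : MemLp v 2) (hw : MemLp w 2) (hw' : MemLp w' 2) :
    ip v (fun x => w x - w' x) = ip v w - ip v w' := by
  rw [ip_comm, ip_sub_left hw hw' hv, ip_comm w, ip_comm w']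

theorem ip_smul_left (c : ℝ) (v w : E → E) : ip (fun x => c • v x) w = c * ip v w := by
  unfold ip
  rw [← integral_const_mul]
  simp only [real_inner_smul_left]

theorem ip_smul_right (c : ℝ) (v w : E → E) : ip v (fun x => c • w x) = c * ip v w := by
  rw [ip_comm, ip_smul_left, ip_comm]

theorem sq_smul (c : ℝ) (v : E → E) : sq (fun x => c • v x) = c ^ 2 * sq v := by
  rw [sq_eq_ip, ip_smul_left, ip_smul_right, sq_eq_ip]; ring

theorem sq_add {v w : E → E} (hv : MemLp v 2) (hw : MemLp w 2) :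
    sq (fun x => v x + w x) = sq v + 2 * ip v w + sq w := by
  have h : MemLp (fun x => v x + w x) 2 := hv.add hw
  rw [sq_eq_ip, ip_add_left hv hw h, ip_add_right hv hv hw, ip_add_right hw hv hw,
    sq_eq_ip, sq_eq_ip, ip_comm w v]; ring

theorem sq_sub {v w : E → E} (hv : MemLp v 2) (hw : MemLp w 2) :
    sq (fun x => v x - w x) = sq v - 2 * ip v w + sq w := by
  have h : MemLp (fun x => v x - w x) 2 := hv.sub hw
  rw [sq_eq_ip, ip_sub_left hv hw h, ip_sub_right hv hv hw, ip_sub_right hw hv hw,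
    sq_eq_ip, sq_eq_ip, ip_comm w v]; ring

theorem sqrt_sq_add_le {v w : E → E} (hv : MemLp v 2) (hw : MemLp w 2) :
    √(sq (fun x => v x + w x)) ≤ √(sq v) + √(sq w) := by
  have h : MemLp (fun x => v x + w x) 2 := hv.add hw
  rw [sqrt_sq_eq_norm hv, sqrt_sq_eq_norm hw, sqrt_sq_eq_norm h]
  have : h.toLp (fun x => v x + w x) = hv.toLp v + hw.toLp w := rfl
  rw [this]
  exact norm_add_le _ _

theorem sqrt_sq_sub_le {v w : E → E} (hv : MemLp v 2) (hw : MemLp w 2) :
    √(sq (fun x => v x - w x)) ≤ √(sq v) + √(sq w) := by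
  have h : MemLp (fun x => v x - w x) 2 := hv.sub hw
  rw [sqrt_sq_eq_norm hv, sqrt_sq_eq_norm hw, sqrt_sq_eq_norm h]
  have : h.toLp (fun x => v x - w x) = hv.toLp v - hw.toLp w := rfl
  rw [this]
  exact norm_sub_le _ _

theorem ip_congr {v v' w w' : E → E} (h : v =ᵐ[volume] v') (h' : w =ᵐ[volume] w') :
    ip v w = ip v' w' := by
  apply integral_congr_ae
  filter_upwards [h, h'] with x h1 h2
  rw [h1, h2]

theorem sq_congr {v v' : E → E} (h : v =ᵐ[volume] v') : sq v = sq v' := by
  rw [sq_eq_ip, sq_eq_ip, ip_congr h h]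

theorem VanOff.mono {C D : Set E} {v : E → E} (h : VanOff C v) (hCD : C ⊆ D) : VanOff D v := by
  filter_upwards [h] with x hx hxD
  exact hx fun hc => hxD (hCD hc)

theorem VanOff.add {C : Set E} {v w : E → E} (h : VanOff C v) (h' : VanOff C w) :
    VanOff C (fun x => v x + w x) := by
  filter_upwards [h, h'] with x h1 h2 hx
  rw [h1 hx, h2 hx, add_zero]

theorem VanOff.sub {C : Set E} {v w : E → E} (h : VanOff C v) (h' : VanOff C w) :
    VanOff C (fun x => v x - w x) := by
  filter_upwards [h, h'] with x h1 h2 hx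
  rw [h1 hx, h2 hx, sub_zero]

theorem VanOff.smul {C : Set E} {v : E → E} (h : VanOff C v) (c : ℝ) :
    VanOff C (fun x => c • v x) := by
  filter_upwards [h] with x h1 hx
  rw [h1 hx, smul_zero]

theorem sq_eq_sqOn {C : Set E} (hC : MeasurableSet C) {v : E → E} (h : VanOff C v) :
    sq v = sqOn C v := by
  unfold sq sqOn
  rw [← integral_indicator hC]
  apply integral_congr_ae
  filter_upwards [h] with x hx
  by_cases hc : x ∈ C
  · simp [hc]
  · simp [hc, hx hc]

theorem ip_eq_setIntegral {C : Set E} (hC : MeasurableSet C) {v w : E → E} (h : VanOff C w) :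
    ip v w = ∫ x in C, ⟪v x, w x⟫ := by
  unfold ip
  rw [← integral_indicator hC]
  apply integral_congr_ae
  filter_upwards [h] with x hx
  by_cases hc : x ∈ C
  · simp [hc]
  · simp [hc, hx hc]

/-- Cauchy-Schwarz with the norm of `v` only on the support of `w`. -/
theorem abs_ip_le_sqOn {C : Set E} (hC : MeasurableSet C) {v w : E → E}
    (hv : MemLp v 2 (volume.restrict C)) (hw : MemLp w 2) (h : VanOff C w) :
    |ip v w| ≤ √(sqOn C v) * √(sq w) := by
  have h1 : MemLp (C.indicator v) 2 := (memLp_indicator_iff_restrict hC).2 hv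
  have h2 : ip v w = ip (C.indicator v) w := by
    unfold ip
    apply integral_congr_ae
    filter_upwards [h] with x hx
    by_cases hc : x ∈ C
    · simp [hc]
    · simp [hc, hx hc]
  have h3 : sq (C.indicator v) = sqOn C v := by
    unfold sq sqOn
    rw [← integral_indicator hC]
    congr 1
    ext x
    by_cases hc : x ∈ C <;> simp [hc]
  rw [h2, ← h3]
  exact abs_ip_le h1 hw

/-! ## Test fields -/

theorem Test.memLp {A : E → E} (h : Test A) : MemLp A 2 :=
  h.1.continuous.memLp_of_hasCompactSupport h.2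

theorem contDiff_pd {A : E → E} (h : ContDiff ℝ ∞ A) (i j : Fin 3) : ContDiff ℝ ∞ (pd A i j) := by
  unfold pd
  have h1 : ContDiff ℝ ∞ (fun x => fderiv ℝ A x (bv i)) :=
    (h.fderiv_right (m := ∞) (by simp)).clm_apply contDiff_const
  exact (EuclideanSpace.proj j : E →L[ℝ] ℝ).contDiff.comp h1

theorem contDiff_curl {A : E → E} (h : ContDiff ℝ ∞ A) : ContDiff ℝ ∞ (curl A) := by
  rw [contDiff_euclidean]
  intro i
  fin_cases i
  · have := (contDiff_pd h 1 2).sub (contDiff_pd h 2 1)
    simpa [curl] using this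
  · have := (contDiff_pd h 2 0).sub (contDiff_pd h 0 2)
    simpa [curl] using this
  · have := (contDiff_pd h 0 1).sub (contDiff_pd h 1 0)
    simpa [curl] using this

theorem curl_eq_zero_of_notMem {A : E → E} {x : E} (h : x ∉ tsupport A) : curl A x = 0 := by
  have h1 : A =ᶠ[𝓝 x] fun _ => 0 := notMem_tsupport_iff_eventuallyEq.1 h
  have h2 : fderiv ℝ A x = 0 := by
    rw [h1.fderiv_eq]; simp
  apply ext3 <;> simp [curl, pd, h2]

theorem tsupport_curl_subset (A : E → E) : tsupport (curl A) ⊆ tsupport A := by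
  apply closure_minimal _ (isClosed_tsupport A)
  intro x hx
  by_contra h
  exact hx (curl_eq_zero_of_notMem h)

theorem Test.curl {A : E → E} (h : Test A) : Test (curl A) :=
  ⟨contDiff_curl h.1, h.2.of_isClosed_subset (isClosed_tsupport _) (tsupport_curl_subset A)⟩

theorem TestIn.curl {Ω : Set E} {A : E → E} (h : TestIn Ω A) : TestIn Ω (curl A) :=
  ⟨h.1.curl, (tsupport_curl_subset A).trans h.2⟩

theorem tsupport_gradient_subset (η : E → ℝ) : tsupport (gradient η) ⊆ tsupport η := by
  apply closure_minimal _ (isClosed_tsupport η)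
  intro x hx
  by_contra h
  apply hx
  have h1 : η =ᶠ[𝓝 x] fun _ => 0 := notMem_tsupport_iff_eventuallyEq.1 h
  have h2 : fderiv ℝ η x = 0 := by
    rw [h1.fderiv_eq]; simp
  simp [gradient, h2]

theorem TestF.gradient {η : E → ℝ} (h : TestF η) : Test (gradient η) :=
  ⟨continuous_gradient h.1,
    h.2.of_isClosed_subset (isClosed_tsupport _) (tsupport_gradient_subset η)⟩

theorem ip_gradient (v : E → E) (η : E → ℝ) : ip v (gradient η) = ∫ x, fderiv ℝ η x (v x) := by
  unfold ip
  simp only [← inner_gradient, real_inner_comm]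

theorem pd_eq {A : E → E} {x : E} (hA : DifferentiableAt ℝ A x) (i j : Fin 3) :
    fderiv ℝ (fun y => A y j) x (bv i) = pd A i j x := by
  have h := ((EuclideanSpace.proj j : E →L[ℝ] ℝ).hasFDerivAt (x := A x)).comp x hA.hasFDerivAt
  have h2 : fderiv ℝ (fun y => A y j) x = _ := h.fderiv
  rw [h2]; rfl

theorem int_parts {A B : E → E} (hA : Test A) (hB : ContDiff ℝ ∞ B) (i j k : Fin 3) :
    Integrable (fun x => pd A i j x * B x k) ∧ Integrable (fun x => A x j * pd B i k x) ∧
    ∫ x, pd A i j x * B x k = - ∫ x, A x j * pd B i k x := by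
  have dA : Differentiable ℝ A := hA.1.differentiable (by simp)
  have dB : Differentiable ℝ B := hB.differentiable (by simp)
  have cA : Continuous (fun x => A x j) := (EuclideanSpace.proj j : E →L[ℝ] ℝ).continuous.comp
    hA.1.continuous
  have cB : Continuous (fun x => B x k) := (EuclideanSpace.proj k : E →L[ℝ] ℝ).continuous.comp
    hB.continuous
  have sA : HasCompactSupport (fun x => A x j) := hA.2.comp_left (g := fun v : E => v j) rfl
  have spA : HasCompactSupport (pd A i j) := by
    refine hA.2.of_isClosed_subset (isClosed_tsupport _) (closure_minimal ?_ (isClosed_tsupport A))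
    intro x hx
    by_contra h
    apply hx
    have h1 : A =ᶠ[𝓝 x] fun _ => 0 := notMem_tsupport_iff_eventuallyEq.1 h
    have h2 : fderiv ℝ A x = 0 := by
      rw [h1.fderiv_eq]; simp
    simp [pd, h2]
  have i1 : Integrable (fun x => pd A i j x * B x k) :=
    ((contDiff_pd hA.1 i j).continuous.mul cB).integrable_of_hasCompactSupport spA.mul_right
  have i2 : Integrable (fun x => A x j * pd B i k x) :=
    (cA.mul (contDiff_pd hB i k).continuous).integrable_of_hasCompactSupport sA.mul_right
  have i3 : Integrable (fun x => A x j * B x k) :=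
    (cA.mul cB).integrable_of_hasCompactSupport sA.mul_right
  refine ⟨i1, i2, ?_⟩
  have h := integral_mul_fderiv_eq_neg_fderiv_mul_of_integrable (μ := (volume : Measure E))
    (f := fun x => A x j) (g := fun x => B x k) (v := bv i)
    (by simpa only [pd_eq (dA _)] using i1) (by simpa only [pd_eq (dB _)] using i2) i3
    (fun x _ => ((EuclideanSpace.proj j : E →L[ℝ] ℝ).differentiableAt.comp x (dA x)))
    (fun x _ => ((EuclideanSpace.proj k : E →L[ℝ] ℝ).differentiableAt.comp x (dB x)))
  simp only [pd_eq (dA _), pd_eq (dB _)] at h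
  linarith

theorem six {f1 f2 f3 f4 f5 f6 : E → ℝ} (h1 : Integrable f1) (h2 : Integrable f2)
    (h3 : Integrable f3) (h4 : Integrable f4) (h5 : Integrable f5) (h6 : Integrable f6) :
    ∫ x, (f1 x - f2 x + f3 x - f4 x + f5 x - f6 x)
      = (∫ x, f1 x) - (∫ x, f2 x) + (∫ x, f3 x) - (∫ x, f4 x) + (∫ x, f5 x) - (∫ x, f6 x) := by
  have g2 : Integrable (fun x => f1 x - f2 x) := h1.sub h2
  have g3 : Integrable (fun x => f1 x - f2 x + f3 x) := g2.add h3
  have g4 : Integrable (fun x => f1 x - f2 x + f3 x - f4 x) := g3.sub h4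
  have g5 : Integrable (fun x => f1 x - f2 x + f3 x - f4 x + f5 x) := g4.add h5
  rw [integral_sub g5 h6, integral_add g4 h5, integral_sub g3 h4, integral_add g2 h3,
    integral_sub h1 h2]

/-- Integration by parts for the curl. -/
theorem ip_curl_comm {A B : E → E} (hA : Test A) (hB : ContDiff ℝ ∞ B) :
    ip (curl A) B = ip A (curl B) := by
  have h := int_parts hA hB
  have e1 : ip (curl A) B = (∫ x, pd A 1 2 x * B x 0) - (∫ x, pd A 2 1 x * B x 0)
      + (∫ x, pd A 2 0 x * B x 1) - (∫ x, pd A 0 2 x * B x 1)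
      + (∫ x, pd A 0 1 x * B x 2) - (∫ x, pd A 1 0 x * B x 2) := by
    rw [← six (h 1 2 0).1 (h 2 1 0).1 (h 2 0 1).1 (h 0 2 1).1 (h 0 1 2).1 (h 1 0 2).1]
    apply integral_congr_ae
    refine Eventually.of_forall fun x => ?_
    simp only [inner_eq, curl_apply_zero, curl_apply_one, curl_apply_two]
    ring
  have e2 : ip A (curl B) = (∫ x, A x 0 * pd B 1 2 x) - (∫ x, A x 0 * pd B 2 1 x)
      + (∫ x, A x 1 * pd B 2 0 x) - (∫ x, A x 1 * pd B 0 2 x)
      + (∫ x, A x 2 * pd B 0 1 x) - (∫ x, A x 2 * pd B 1 0 x) := by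
    rw [← six (h 1 0 2).2.1 (h 2 0 1).2.1 (h 2 1 0).2.1 (h 0 1 2).2.1 (h 0 2 1).2.1 (h 1 2 0).2.1]
    apply integral_congr_ae
    refine Eventually.of_forall fun x => ?_
    simp only [inner_eq, curl_apply_zero, curl_apply_one, curl_apply_two]
    ring
  rw [e1, e2, (h 1 2 0).2.2, (h 2 1 0).2.2, (h 2 0 1).2.2, (h 0 2 1).2.2, (h 0 1 2).2.2,
    (h 1 0 2).2.2]
  ring

theorem exists_closedBall_of_compact {A : E → E} (h : HasCompactSupport A) :
    ∃ R, tsupport A ⊆ closedBall 0 R :=
  h.isBounded.subset_closedBall 0 |>.imp fun _ h => h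

/-- A test field is a potential of its curl. -/
theorem Test.pot {A : E → E} (h : Test A) : Pot A (Pool.Agent.Helper38.Curl.curl A) where
  memLp₁ := h.memLp
  memLp₂ := h.curl.memLp
  bdd := by
    obtain ⟨R, hR⟩ := h.2.isBounded.subset_closedBall 0
    refine ⟨R, Eventually.of_forall fun x hx => ?_, Eventually.of_forall fun x hx => ?_⟩
    · exact image_eq_zero_of_notMem_tsupport fun hc => hx (hR hc)
    · exact curl_eq_zero_of_notMem fun hc => hx (hR hc)
  weak := fun φ hφ => (ip_curl_comm h hφ.1).symm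

/-- Weak curls are divergence free. -/
theorem Pot.divFree {a v : E → E} (h : Pot a v) (η : E → ℝ) (hη : TestF η) :
    ∫ x, fderiv ℝ η x (v x) = 0 := by
  rw [← ip_gradient, ← h.weak _ hη.gradient]
  unfold ip
  simp [curl_gradient hη.1]

theorem Pot.sol {a v : E → E} (h : Pot a v) {C : Set E} (hC : VanOff C v) : Sol C v :=
  ⟨h.memLp₂, hC, h.divFree⟩

theorem Pot.add {a v b w : E → E} (h : Pot a v) (h' : Pot b w) :
    Pot (fun x => a x + b x) (fun x => v x + w x) where
  memLp₁ := h.memLp₁.add h'.memLp₁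
  memLp₂ := h.memLp₂.add h'.memLp₂
  bdd := by
    obtain ⟨R, h1, h2⟩ := h.bdd
    obtain ⟨R', h3, h4⟩ := h'.bdd
    have hs : closedBall (0 : E) R ⊆ closedBall 0 (max R R') :=
      closedBall_subset_closedBall (le_max_left _ _)
    have hs' : closedBall (0 : E) R' ⊆ closedBall 0 (max R R') :=
      closedBall_subset_closedBall (le_max_right _ _)
    exact ⟨max R R', (h1.mono hs).add (h3.mono hs'), (h2.mono hs).add (h4.mono hs')⟩
  weak := fun φ hφ => by
    rw [ip_add_left h.memLp₁ h'.memLp₁ hφ.curl.memLp, ip_add_left h.memLp₂ h'.memLp₂ hφ.memLp,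
      h.weak φ hφ, h'.weak φ hφ]

theorem Pot.smul {a v : E → E} (h : Pot a v) (c : ℝ) :
    Pot (fun x => c • a x) (fun x => c • v x) where
  memLp₁ := h.memLp₁.const_smul c
  memLp₂ := h.memLp₂.const_smul c
  bdd := by
    obtain ⟨R, h1, h2⟩ := h.bdd
    exact ⟨R, h1.smul c, h2.smul c⟩
  weak := fun φ hφ => by
    rw [ip_smul_left, ip_smul_left, h.weak φ hφ]

theorem Pot.sub {a v b w : E → E} (h : Pot a v) (h' : Pot b w) :
    Pot (fun x => a x - b x) (fun x => v x - w x) := by
  have := h.add (h'.smul (-1))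
  simpa [sub_eq_add_neg] using this

end Pool.Agent.Helper38.Curl
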