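import Mathlib

/-!
# The first positive curl eigenvalue: definitions

Everything is stated with square integrable fields on Euclidean three-space and smooth compactly
supported test fields.
-/

open MeasureTheory Set Filter Topology Metric
open scoped ContDiff RealInnerProductSpace

namespace Pool.Agent.Helper38.Curl

/-- Euclidean three-space. -/
abbrev E := EuclideanSpace ℝ (Fin 3)

/-- The cross product. -/
noncomputable def cr (a b : E) : E :=
  !₂[a 1 * b 2 - a 2 * b 1, a 2 * b 0 - a 0 * b 2, a 0 * b 1 - a 1 * b 0]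

/-- The standard basis vectors. -/
noncomputable def bv (i : Fin 3) : E := EuclideanSpace.single i 1

/-- The partial derivative `∂_i A_j`. -/
noncomputable def pd (A : E → E) (i j : Fin 3) (x : E) : ℝ := fderiv ℝ A x (bv i) j

/-- The curl of a vector field. -/
noncomputable def curl (A : E → E) (x : E) : E :=
  !₂[pd A 1 2 x - pd A 2 1 x, pd A 2 0 x - pd A 0 2 x, pd A 0 1 x - pd A 1 0 x]

/-- Smooth compactly supported vector fields. -/
def Test (A : E → E) : Prop := ContDiff ℝ ∞ A ∧ HasCompactSupport A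

/-- Smooth vector fields with compact support in `Ω`. -/
def TestIn (Ω : Set E) (A : E → E) : Prop := Test A ∧ tsupport A ⊆ Ω

/-- Smooth compactly supported functions. -/
def TestF (η : E → ℝ) : Prop := ContDiff ℝ ∞ η ∧ HasCompactSupport η

/-- Smooth functions with compact support in `Ω`. -/
def TestFIn (Ω : Set E) (η : E → ℝ) : Prop := TestF η ∧ tsupport η ⊆ Ω

/-- `w` is curl free in `Ω` (in the sense of distributions). -/
def CurlFreeOn (Ω : Set E) (w : E → E) : Prop :=
  ∀ A, TestIn Ω A → ∫ x in Ω, ⟪w x, curl A x⟫ = 0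

/-- `μ` is an eigenvalue of the curl on `Ω`: there is a nonzero square integrable field `u` on `Ω`
with `curl u = μ u` in `Ω`, with vanishing divergence in `Ω` and vanishing normal component on the
boundary (weak form: orthogonality to all gradients of smooth functions of the whole space), and
orthogonal in `L²(Ω)` to all square integrable curl free fields. -/
def IsCurlEigenvalue (Ω : Set E) (μ : ℝ) : Prop :=
  ∃ u : E → E, MemLp u 2 (volume.restrict Ω) ∧ ¬ (u =ᵐ[volume.restrict Ω] 0) ∧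
    (∀ A, TestIn Ω A → ∫ x in Ω, ⟪u x, curl A x⟫ = μ * ∫ x in Ω, ⟪u x, A x⟫) ∧
    (∀ η, TestF η → ∫ x in Ω, fderiv ℝ η x (u x) = 0) ∧
    (∀ w, MemLp w 2 (volume.restrict Ω) → CurlFreeOn Ω w → ∫ x in Ω, ⟪u x, w x⟫ = 0)

/-- `μ` is the first positive curl eigenvalue of `Ω`. -/
def IsMuOne (Ω : Set E) (μ : ℝ) : Prop := IsLeast {μ | 0 < μ ∧ IsCurlEigenvalue Ω μ} μ

/-- The first two coordinates. -/
noncomputable def horiz (y : E) : EuclideanSpace ℝ (Fin 2) := !₂[y 0, y 1]

/-- The boundary of `Ω` is Lipschitz: near every boundary point, in suitable orthonormal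
coordinates, `Ω` is the region above the graph of a Lipschitz function. -/
def HasLipschitzBoundary (Ω : Set E) : Prop :=
  ∀ p ∈ frontier Ω, ∃ (T : E ≃ₗᵢ[ℝ] E) (L : NNReal) (φ : EuclideanSpace ℝ (Fin 2) → ℝ) (r : ℝ),
    0 < r ∧ LipschitzWith L φ ∧ ∀ y ∈ ball p r, (y ∈ Ω ↔ φ (horiz (T y)) < T y 2)

/-- Bounded open sets with Lipschitz boundary. -/
structure LipDom (Ω : Set E) : Prop where
  isOpen : IsOpen Ω
  isBounded : Bornology.IsBounded Ω
  lip : HasLipschitzBoundary Ω

/-! ## Square integrable fields -/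

/-- The inner product of `L²`. -/
noncomputable def ip (v w : E → E) : ℝ := ∫ x, ⟪v x, w x⟫

/-- The square of the norm of `L²`. -/
noncomputable def sq (v : E → E) : ℝ := ∫ x, ‖v x‖ ^ 2

/-- The square of the norm of `L²(S)`. -/
noncomputable def sqOn (S : Set E) (v : E → E) : ℝ := ∫ x in S, ‖v x‖ ^ 2

/-- `v` vanishes almost everywhere off `C`. -/
def VanOff (C : Set E) (v : E → E) : Prop := ∀ᵐ x, x ∉ C → v x = 0

/-- `v` is a square integrable divergence free field (on the whole space) which vanishes almost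
everywhere off `C`. -/
structure Sol (C : Set E) (v : E → E) : Prop where
  memLp : MemLp v 2
  van : VanOff C v
  divFree : ∀ η, TestF η → ∫ x, fderiv ℝ η x (v x) = 0

/-- `v` is the weak curl of `a`; both are square integrable with bounded support. -/
structure Pot (a v : E → E) : Prop where
  memLp₁ : MemLp a 2
  memLp₂ : MemLp v 2
  bdd : ∃ R, VanOff (closedBall 0 R) a ∧ VanOff (closedBall 0 R) v
  weak : ∀ φ, Test φ → ip a (curl φ) = ip v φ

/-- The Laplacian of a function. -/
noncomputable def lap (φ : E → ℝ) (x : E) : ℝ :=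
  ∑ i, fderiv ℝ (fun y => fderiv ℝ φ y (bv i)) x (bv i)

/-- All components of `V` are weakly harmonic in `U`. -/
def WH (U : Set E) (V : E → E) : Prop := ∀ φ, TestFIn U φ → ∀ i, ∫ x, V x i * lap φ x = 0

/-- `V` is weakly divergence free in `U`. -/
def DivFreeIn (U : Set E) (V : E → E) : Prop := ∀ η, TestFIn U η → ∫ x, fderiv ℝ η x (V x) = 0

/-- The basic radial bump function: positive in the open unit ball and zero elsewhere. -/
noncomputable def kap0 (y : E) : ℝ := expNegInvGlue (1 - ‖y‖ ^ 2)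

/-- The radial mollifiers. -/
noncomputable def kap (r : ℝ) (y : E) : ℝ := (∫ z, kap0 z)⁻¹ * (r ^ 3)⁻¹ * kap0 (r⁻¹ • y)

/-- Mollification. -/
noncomputable def mol (r : ℝ) (v : E → E) (x : E) : E := ∫ y, kap r (x - y) • v y

/-- Weak convergence in `L²` on bounded sets. -/
def WkTo (v : ℕ → E → E) (V : E → E) : Prop :=
  ∀ φ : E → E, MemLp φ 2 → (∃ R, VanOff (closedBall 0 R) φ) →
    Tendsto (fun n => ip (v n) φ) atTop (𝓝 (ip V φ))

/-- The signed distance to the boundary, positive in `Ω`. -/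
noncomputable def sd (Ω : Set E) (x : E) : ℝ := infDist x Ωᶜ - infDist x Ω

/-- Uniform transversality of the boundary of `Ω`: near every boundary point one of finitely many
unit vectors points into `Ω`, uniformly. -/
structure Trans (Ω : Set E) (r₀ c₀ : ℝ) (F : Finset E) : Prop where
  rpos : 0 < r₀
  cpos : 0 < c₀
  unit : ∀ ν ∈ F, ‖ν‖ = 1
  main : ∀ x ∈ frontier Ω, ∃ ν ∈ F, ∀ y ∈ frontier Ω ∩ ball x r₀, ∀ t ∈ Icc (0 : ℝ) r₀,
    c₀ * t ≤ sd Ω (y + t • ν) ∧ sd Ω (y - t • ν) ≤ -(c₀ * t)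

/-- A maximizer of the helicity quotient which is optimal among all supports of the same volume
(normalized by `‖u‖² = 3`). -/
structure Crit (Ω : Set E) (u a : E → E) (Λ : ℝ) : Prop where
  isOpen : IsOpen Ω
  bdd : Bornology.IsBounded Ω
  vol : volume Ω = 1
  fr : volume (frontier Ω) = 0
  pos : 0 < Λ
  pot : Pot a u
  van : ∀ x, x ∉ Ω → u x = 0
  norm : sq u = 3
  hel : ip u a = 3 * Λ
  inK : ∀ ε > 0, ∃ A, TestIn Ω A ∧ sq (fun x => curl A x - u x) < ε
  opt : ∀ (C : Set E) (b w : E → E), IsCompact C → Pot b w → VanOff C w →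
    ip w b ≤ Λ * (volume.real C) ^ (1 / 3 : ℝ) * sq w

/-- Blow-up of a field at `x` with scale `s`. -/
def bl (u : E → E) (x : E) (s : ℝ) (z : E) : E := u (x + s • z)

/-- The growth bound at boundary points. -/
def Growth (Ω : Set E) (u : E → E) (CU : ℝ) : Prop :=
  ∀ x ∈ frontier Ω, ∀ s, 0 < s → s ≤ 1 → sqOn (ball x s) u ≤ CU * s ^ 3

/-- Convergent blow-up sequence at boundary points `x n` with scales `s n`. -/
structure Bl (Ω : Set E) (u : E → E) (r₀ c₀ : ℝ) (x : ℕ → E) (s : ℕ → ℝ) (ν : E) (g : E → ℝ)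
    (V : E → E) : Prop where
  mem : ∀ n, x n ∈ frontier Ω
  spos : ∀ n, 0 < s n
  slim : Tendsto s atTop (𝓝 0)
  nu : ‖ν‖ = 1
  lip : LipschitzWith 1 g
  g0 : g 0 = 0
  conv : ∀ R, TendstoUniformlyOn (fun n z => sd Ω (x n + s n • z) / s n) g atTop (closedBall 0 R)
  trans : ∀ z, g z = 0 → ∀ t, 0 ≤ t → c₀ * t ≤ g (z + t • ν) ∧ g (z - t • ν) ≤ -(c₀ * t)
  transn : ∀ n, ∀ y ∈ frontier Ω ∩ ball (x n) r₀, ∀ t ∈ Icc (0 : ℝ) r₀,
    c₀ * t ≤ sd Ω (y + t • ν) ∧ sd Ω (y - t • ν) ≤ -(c₀ * t)
  loc : ∀ R, MemLp V 2 (volume.restrict (ball 0 R))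
  wk : WkTo (fun n => bl u (x n) (s n)) V

end Pool.Agent.Helper38.Curl
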