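import Pool.Agent.Helper38.Curl.Lib

open MeasureTheory Set Filter Topology Metric
open scoped ContDiff RealInnerProductSpace

namespace Pool.Agent.Helper38.Curl

/-! ## Geometry near a boundary point -/

theorem ball_subset_of_le_sd {Ω : Set E} {p : E} {r : ℝ} (h : r ≤ sd Ω p) : ball p r ⊆ Ω := by
  intro y hy
  by_contra hyΩ
  have h1 : infDist p Ωᶜ ≤ dist p y := infDist_le_dist_of_mem hyΩ
  have h2 : 0 ≤ infDist p Ω := infDist_nonneg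
  unfold sd at h
  rw [mem_ball, dist_comm] at hy
  linarith

theorem notMem_of_sd_le {Ω : Set E} {p : E} {r : ℝ} (h : sd Ω p ≤ -r) {y : E}
    (hy : y ∈ ball p r) : y ∉ Ω := by
  intro hyΩ
  have h1 : infDist p Ω ≤ dist p y := infDist_le_dist_of_mem hyΩ
  have h2 : 0 ≤ infDist p Ωᶜ := infDist_nonneg
  unfold sd at h
  rw [mem_ball, dist_comm] at hy
  linarith

theorem up {Ω : Set E} (ho : IsOpen Ω) (hn : Ω.Nonempty) (hn' : Ωᶜ.Nonempty) {x ν : E} {r₀ c₀ : ℝ}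
    (hc₀ : 0 < c₀) (hν : ‖ν‖ = 1)
    (ht : ∀ y ∈ frontier Ω ∩ ball x r₀, ∀ t ∈ Icc (0 : ℝ) r₀,
      c₀ * t ≤ sd Ω (y + t • ν) ∧ sd Ω (y - t • ν) ≤ -(c₀ * t)) {p : E} (hp : p ∈ Ω) {t : ℝ}
    (ht0 : 0 ≤ t) (hb : ‖p - x‖ + t < r₀) : p + t • ν ∈ Ω := by
  by_contra hpt
  have hpre : IsPreconnected ((fun τ : ℝ => p + τ • ν) '' Icc 0 t) :=
    isPreconnected_Icc.image _ (by fun_prop)
  have key : ∃ τ ∈ Icc 0 t, p + τ • ν ∈ frontier Ω := by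
    by_contra hcon
    push Not at hcon
    have hsplit : ∀ τ ∈ Icc 0 t, p + τ • ν ∉ Ω → p + τ • ν ∈ (closure Ω)ᶜ := by
      intro τ hτ h hcl
      exact hcon τ hτ ⟨hcl, by rwa [ho.interior_eq]⟩
    have hsub : ((fun τ : ℝ => p + τ • ν) '' Icc 0 t) ⊆ Ω ∪ (closure Ω)ᶜ := by
      rintro _ ⟨τ, hτ, rfl⟩
      by_cases h : p + τ • ν ∈ Ω
      · exact Or.inl h
      · exact Or.inr (hsplit τ hτ h)
    have h1 : (((fun τ : ℝ => p + τ • ν) '' Icc 0 t) ∩ Ω).Nonempty :=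
      ⟨p, ⟨0, ⟨le_refl 0, ht0⟩, by simp⟩, hp⟩
    have h2 : (((fun τ : ℝ => p + τ • ν) '' Icc 0 t) ∩ (closure Ω)ᶜ).Nonempty :=
      ⟨p + t • ν, ⟨t, ⟨ht0, le_refl t⟩, rfl⟩, hsplit t ⟨ht0, le_refl t⟩ hpt⟩
    obtain ⟨w, -, hw1, hw2⟩ := hpre Ω (closure Ω)ᶜ ho isClosed_closure.isOpen_compl hsub h1 h2
    exact hw2 (subset_closure hw1)
  obtain ⟨τ, hτ, hfr⟩ := key
  have h3 : p + τ • ν ∈ ball x r₀ := by
    rw [mem_ball, dist_eq_norm]
    have : p + τ • ν - x = (p - x) + τ • ν := by abel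
    rw [this]
    refine (norm_add_le _ _).trans_lt ?_
    rw [norm_smul, hν, mul_one, Real.norm_eq_abs, abs_of_nonneg hτ.1]
    linarith [hτ.2]
  have hn0 : 0 ≤ ‖p - x‖ := norm_nonneg _
  have h4 := (ht _ ⟨hfr, h3⟩ τ ⟨hτ.1, by linarith [hτ.2]⟩).2
  simp only [add_sub_cancel_right] at h4
  have h5 : 0 < sd Ω p := (sd_pos_iff ho hn hn').2 hp
  have h6 : 0 ≤ c₀ * τ := mul_nonneg hc₀.le hτ.1
  linarith

theorem down {Ω : Set E} (ho : IsOpen Ω) (hn : Ω.Nonempty) (hn' : Ωᶜ.Nonempty) {x ν : E}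
    {r₀ c₀ : ℝ} (hc₀ : 0 < c₀) (hν : ‖ν‖ = 1)
    (ht : ∀ y ∈ frontier Ω ∩ ball x r₀, ∀ t ∈ Icc (0 : ℝ) r₀,
      c₀ * t ≤ sd Ω (y + t • ν) ∧ sd Ω (y - t • ν) ≤ -(c₀ * t)) {p : E} (hp : p ∉ Ω) {t : ℝ}
    (ht0 : 0 ≤ t) (hb : ‖p - x‖ + 2 * t < r₀) : p - t • ν ∉ Ω := by
  intro h
  apply hp
  have h1 : ‖p - t • ν - x‖ ≤ ‖p - x‖ + t := by
    have : p - t • ν - x = (p - x) - t • ν := by abel
    rw [this]
    refine (norm_sub_le _ _).trans_eq ?_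
    rw [norm_smul, hν, mul_one, Real.norm_eq_abs, abs_of_nonneg ht0]
  have := up ho hn hn' hc₀ hν ht h ht0 (by linarith)
  rwa [sub_add_cancel] at this

/-- Everything we need about the blow-up at step `n` when the scale is small. -/
structure Good (Ω : Set E) (x : E) (s : ℝ) (ν : E) (c₁ T τ R : ℝ) : Prop where
  spos : 0 < s
  top : ball (T • ν) 3 ⊆ {z | x + s • z ∈ Ω}
  up : ∀ z ∈ ball (0 : E) 3, x + s • z ∈ Ω → ∀ t ∈ Icc (0 : ℝ) T, x + s • (z + t • ν) ∈ Ω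
  down : ∀ z ∈ ball (0 : E) 3, x + s • z ∉ Ω → ∀ t ∈ Icc (0 : ℝ) τ, x + s • (z - t • ν) ∉ Ω
  bot : ∀ z ∈ ball (0 : E) R, x + s • (z - τ • ν) ∉ Ω
  fr₁ : ∀ z ∈ ball (0 : E) 3, x + s • z ∈ frontier Ω →
    ball (z + (2⁻¹ : ℝ) • ν) (c₁ / 2) ⊆ {z | x + s • z ∈ Ω}
  fr₂ : ∀ z ∈ ball (0 : E) 3, x + s • z ∈ frontier Ω →
    ball (z - (2⁻¹ : ℝ) • ν) (c₁ / 2) ⊆ {z | x + s • z ∉ Ω}

theorem mem_ball_scale {x z w : E} {s r : ℝ} (hs : 0 < s) (h : w ∈ ball z r) :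
    x + s • w ∈ ball (x + s • z) (s * r) := by
  rw [mem_ball, dist_eq_norm] at *
  have : x + s • w - (x + s • z) = s • (w - z) := by rw [smul_sub]; abel
  rw [this, norm_smul, Real.norm_eq_abs, abs_of_pos hs]
  exact mul_lt_mul_of_pos_left h hs

theorem good {Ω : Set E} (ho : IsOpen Ω) (hn : Ω.Nonempty) (hn' : Ωᶜ.Nonempty) {x ν : E}
    {r₀ c₀ : ℝ} (hc₀ : 0 < c₀) (hν : ‖ν‖ = 1) (hx : x ∈ frontier Ω)
    (ht : ∀ y ∈ frontier Ω ∩ ball x r₀, ∀ t ∈ Icc (0 : ℝ) r₀,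
      c₀ * t ≤ sd Ω (y + t • ν) ∧ sd Ω (y - t • ν) ≤ -(c₀ * t)) {s c₁ T τ R : ℝ} (hs : 0 < s)
    (hc₁ : c₁ ≤ c₀) (hT : 0 ≤ T) (hTc : 3 ≤ c₀ * T) (hτ : 0 ≤ τ)
    (hτc : R ≤ c₀ * τ) (hsm : s * (4 + T + 2 * τ) < r₀) : Good Ω x s ν c₁ T τ R := by
  have hsT : 0 ≤ s * T := by positivity
  have hsτ : 0 ≤ s * τ := by positivity
  have hr₀ : 0 < r₀ := by nlinarith
  have hxb : x ∈ frontier Ω ∩ ball x r₀ := ⟨hx, mem_ball_self hr₀⟩
  have hnz : ∀ z ∈ ball (0 : E) 3, ‖x + s • z - x‖ < s * 3 := by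
    intro z hz
    rw [mem_ball_zero_iff] at hz
    rw [add_sub_cancel_left, norm_smul, Real.norm_eq_abs, abs_of_pos hs]
    exact mul_lt_mul_of_pos_left hz hs
  refine ⟨hs, ?_, ?_, ?_, ?_, ?_, ?_⟩
  · have h1 := (ht x hxb (s * T) ⟨hsT, by nlinarith⟩).1
    intro z hz
    have h2 : s * 3 ≤ sd Ω (x + (s * T) • ν) := by
      refine le_trans ?_ h1
      nlinarith
    have h3 := mem_ball_scale (x := x) hs hz
    rw [smul_smul] at h3
    exact ball_subset_of_le_sd h2 h3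
  · intro z hz hzΩ t ht'
    have h1 := up ho hn hn' hc₀ hν ht hzΩ (t := s * t) (mul_nonneg hs.le ht'.1) (by
      have h2 := hnz z hz
      have h3 : s * t ≤ s * T := mul_le_mul_of_nonneg_left ht'.2 hs.le
      nlinarith)
    rw [smul_add, smul_smul, ← add_assoc]
    exact h1
  · intro z hz hzΩ t ht'
    have h1 := down ho hn hn' hc₀ hν ht hzΩ (t := s * t) (mul_nonneg hs.le ht'.1) (by
      have h2 := hnz z hz
      have h3 : s * t ≤ s * τ := mul_le_mul_of_nonneg_left ht'.2 hs.le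
      nlinarith)
    rw [smul_sub, smul_smul, ← add_sub_assoc]
    exact h1
  · intro z hz
    have h1 := (ht x hxb (s * τ) ⟨hsτ, by nlinarith⟩).2
    have h2 : sd Ω (x - (s * τ) • ν) ≤ -(s * R) := by
      refine h1.trans ?_
      nlinarith
    have h3 : x + s • (z - τ • ν) ∈ ball (x - (s * τ) • ν) (s * R) := by
      rw [mem_ball_zero_iff] at hz
      rw [mem_ball, dist_eq_norm]
      have : x + s • (z - τ • ν) - (x - (s * τ) • ν) = s • z := by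
        rw [smul_sub, smul_smul]; abel
      rw [this, norm_smul, Real.norm_eq_abs, abs_of_pos hs]
      exact mul_lt_mul_of_pos_left hz hs
    exact notMem_of_sd_le h2 h3
  · intro z hz hfr w hw
    have h0 : x + s • z ∈ frontier Ω ∩ ball x r₀ := by
      refine ⟨hfr, ?_⟩
      rw [mem_ball, dist_eq_norm]
      have := hnz z hz
      nlinarith
    have h1 := (ht _ h0 (s * 2⁻¹) ⟨by positivity, by nlinarith⟩).1
    have h2 : s * (c₁ / 2) ≤ sd Ω (x + s • z + (s * 2⁻¹) • ν) := by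
      refine le_trans ?_ h1
      nlinarith
    have h3 := mem_ball_scale (x := x) hs hw
    rw [smul_add, smul_smul, ← add_assoc] at h3
    exact ball_subset_of_le_sd h2 h3
  · intro z hz hfr w hw
    have h0 : x + s • z ∈ frontier Ω ∩ ball x r₀ := by
      refine ⟨hfr, ?_⟩
      rw [mem_ball, dist_eq_norm]
      have := hnz z hz
      nlinarith
    have h1 := (ht _ h0 (s * 2⁻¹) ⟨by positivity, by nlinarith⟩).2
    have h2 : sd Ω (x + s • z - (s * 2⁻¹) • ν) ≤ -(s * (c₁ / 2)) := by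
      refine h1.trans ?_
      nlinarith
    have h3 := mem_ball_scale (x := x) hs hw
    rw [smul_sub, smul_smul, ← add_sub_assoc] at h3
    exact notMem_of_sd_le h2 h3

end Pool.Agent.Helper38.Curl
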