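import Pool.Agent.Helper38.Curl.FinA

open MeasureTheory Set Filter Topology Metric
open scoped ContDiff RealInnerProductSpace

namespace Pool.Agent.Helper38.Curl

/-! ## Averages over converging sets -/

theorem integrableOn_ball {F : Type*} [NormedAddCommGroup F] {f : E → F} (hf : Continuous f)
    (z : E) (R : ℝ) : IntegrableOn f (ball z R) :=
  (hf.continuousOn.integrableOn_compact (isCompact_closedBall z R)).mono_set ball_subset_closedBall

theorem setIntegral_tendsto {D : ℕ → Set E} {D' : Set E} {R : ℝ}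
    (hD : ∀ n, MeasurableSet (D n)) (hD' : MeasurableSet D')
    (hs : ∀ᶠ n in atTop, D n ⊆ ball 0 R) (hlim : ∀ᵐ w, ∀ᶠ n in atTop, (w ∈ D n ↔ w ∈ D'))
    {f : E → ℝ} (hf : Continuous f) :
    Tendsto (fun n => ∫ y in D n, f y) atTop (𝓝 (∫ y in D', f y)) := by
  have h1 : ∀ S : Set E, MeasurableSet S → ∫ y in S, f y = ∫ y, S.indicator f y :=
    fun S hS => (integral_indicator hS).symm
  rw [h1 _ hD']
  simp only [fun n => h1 _ (hD n)]
  refine tendsto_integral_filter_of_dominated_convergence ((ball 0 R).indicator fun y => ‖f y‖)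
    ?_ ?_ ?_ ?_
  · exact Eventually.of_forall fun n => hf.aestronglyMeasurable.indicator (hD n)
  · filter_upwards [hs] with n hn
    refine Eventually.of_forall fun y => ?_
    by_cases hy : y ∈ D n
    · rw [indicator_of_mem hy, indicator_of_mem (hn hy)]
    · rw [indicator_of_notMem hy, norm_zero]
      exact indicator_nonneg (fun _ _ => norm_nonneg _) _
  · exact (integrable_indicator_iff measurableSet_ball).2 (integrableOn_ball hf.norm 0 R)
  · filter_upwards [hlim] with w hw
    refine tendsto_const_nhds.congr' ?_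
    filter_upwards [hw] with n hn
    by_cases h : w ∈ D'
    · rw [indicator_of_mem h, indicator_of_mem (hn.2 h)]
    · rw [indicator_of_notMem h, indicator_of_notMem (fun h' => h (hn.1 h'))]

theorem setAvg_tendsto {D : ℕ → Set E} {D' : Set E} {R : ℝ}
    (hD : ∀ n, MeasurableSet (D n)) (hD' : MeasurableSet D')
    (hs : ∀ᶠ n in atTop, D n ⊆ ball 0 R) (hlim : ∀ᵐ w, ∀ᶠ n in atTop, (w ∈ D n ↔ w ∈ D'))
    (hpos : 0 < volume.real D') {f : E → ℝ} (hf : Continuous f) :
    Tendsto (fun n => ⨍ y in D n, f y) atTop (𝓝 (⨍ y in D', f y)) := by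
  simp only [setAverage_eq, smul_eq_mul]
  have h1 := setIntegral_tendsto hD hD' hs hlim (f := fun _ => (1 : ℝ)) continuous_const
  simp only [setIntegral_const, smul_eq_mul, mul_one] at h1
  exact (h1.inv₀ hpos.ne').mul (setIntegral_tendsto hD hD' hs hlim hf)

theorem ind_tendsto {Ω : Set E} {u a : E → E} {Λ : ℝ} (hc : Crit Ω u a Λ) {r₀ c₀ : ℝ}
    (hc₀ : 0 < c₀) (hn : Ω.Nonempty) (hn' : Ωᶜ.Nonempty)
    {x : ℕ → E} {s : ℕ → ℝ} {ν : E} {g : E → ℝ} {V : E → E}
    (h : Bl Ω u r₀ c₀ x s ν g V) {z : ℕ → E} {z' : E} (hz : Tendsto z atTop (𝓝 z')) :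
    ∀ᵐ w, ∀ᶠ n in atTop, (w ∈ ball (z n) 1 ∩ {w | x n + s n • w ∈ Ω} ↔
      w ∈ ball z' 1 ∩ {w | 0 < g w}) := by
  have h1 : ∀ᵐ w : E, g w ≠ 0 := by
    have := limit_null hc₀ h.nu h.lip h.trans
    rw [ae_iff]
    simpa using this
  have h2 : ∀ᵐ w : E, dist w z' ≠ 1 := by
    have : volume (sphere z' 1) = 0 := Measure.addHaar_sphere _ _ _
    rw [ae_iff]
    simpa [sphere] using this
  filter_upwards [h1, h2] with w hw1 hw2
  have h3 : Tendsto (fun n => dist w (z n)) atTop (𝓝 (dist w z')) := tendsto_const_nhds.dist hz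
  have h4 : ∀ᶠ n in atTop, (w ∈ ball (z n) 1 ↔ w ∈ ball z' 1) := by
    rcases lt_or_gt_of_ne hw2 with h5 | h5
    · filter_upwards [h3.eventually_lt_const h5] with n hn
      simp [hn, h5]
    · filter_upwards [h3.eventually_const_lt h5] with n hn
      simp only [mem_ball]
      exact ⟨fun h => absurd h (not_lt.2 hn.le), fun h => absurd h (not_lt.2 h5.le)⟩
  have h5 : Tendsto (fun n => sd Ω (x n + s n • w) / s n) atTop (𝓝 (g w)) :=
    (h.conv (‖w‖)).tendsto_at (by simp)
  have h6 : ∀ᶠ n in atTop, (x n + s n • w ∈ Ω ↔ 0 < g w) := by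
    rcases lt_or_gt_of_ne hw1 with h7 | h7
    · filter_upwards [h5.eventually_lt_const h7] with n hn1
      refine ⟨fun h8 => ?_, fun h8 => absurd h8 (not_lt.2 h7.le)⟩
      have h9 : 0 < sd Ω (x n + s n • w) := (sd_pos_iff hc.isOpen hn hn').2 h8
      exact absurd (div_pos h9 (h.spos n)) (not_lt.2 hn1.le)
    · filter_upwards [h5.eventually_const_lt h7] with n hn1
      refine ⟨fun _ => h7, fun _ => ?_⟩
      rw [← sd_pos_iff hc.isOpen hn hn']
      have := mul_pos hn1 (h.spos n)
      rwa [div_mul_cancel₀ _ (h.spos n).ne'] at this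
  filter_upwards [h4, h6] with n h7 h8
  simp only [mem_inter_iff, mem_ofPred_eq]
  rw [h7, h8]

theorem centroid {g : E → ℝ} (hg : Continuous g) {e : E} (he : ‖e‖ = 1)
    (hinv : ∀ (z : E) (t : ℝ), (0 < g (z + t • e) ↔ 0 < g z))
    (hpos : 0 < volume.real (ball (0 : E) 1 ∩ {w | 0 < g w})) :
    (⨍ y in ball e 1 ∩ {w | 0 < g w}, ⟪e, y⟫) - ⨍ y in ball (0 : E) 1 ∩ {w | 0 < g w}, ⟪e, y⟫
      = 1 := by
  have hP : IsOpen {w | 0 < g w} := isOpen_lt continuous_const hg
  have hmem : ∀ w, w + e ∈ ball e 1 ∩ {w | 0 < g w} ↔ w ∈ ball (0 : E) 1 ∩ {w | 0 < g w} := by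
    intro w
    simp only [mem_inter_iff, mem_ball, dist_eq_norm, add_sub_cancel_right, sub_zero,
      mem_ofPred_eq]
    have := hinv w 1
    rw [one_smul] at this
    rw [this]
  have hkey : ∀ f : E → ℝ, ∫ y in ball e 1 ∩ {w | 0 < g w}, f y
      = ∫ y in ball (0 : E) 1 ∩ {w | 0 < g w}, f (y + e) := by
    intro f
    rw [← integral_indicator (measurableSet_ball.inter hP.measurableSet),
      ← integral_indicator (measurableSet_ball.inter hP.measurableSet),
      ← integral_add_right_eq_self _ e]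
    congr 1
    ext w
    by_cases hw : w ∈ ball (0 : E) 1 ∩ {w | 0 < g w}
    · rw [indicator_of_mem hw, indicator_of_mem ((hmem w).2 hw)]
    · rw [indicator_of_notMem hw, indicator_of_notMem fun h => hw ((hmem w).1 h)]
  have hvol : volume.real (ball e 1 ∩ {w | 0 < g w})
      = volume.real (ball (0 : E) 1 ∩ {w | 0 < g w}) := by
    have := hkey fun _ => 1
    simpa using this
  rw [setAverage_eq, setAverage_eq, hvol, hkey]
  have hi : IntegrableOn (fun y : E => ⟪e, y⟫) (ball (0 : E) 1 ∩ {w | 0 < g w}) :=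
    (integrableOn_ball (by fun_prop) 0 1).mono_set inter_subset_left
  have h1 : ∫ y in ball (0 : E) 1 ∩ {w | 0 < g w}, ⟪e, y + e⟫
      = (∫ y in ball (0 : E) 1 ∩ {w | 0 < g w}, ⟪e, y⟫)
        + volume.real (ball (0 : E) 1 ∩ {w | 0 < g w}) := by
    have h2 : ∀ y : E, ⟪e, y + e⟫ = ⟪e, y⟫ + 1 := by
      intro y
      rw [inner_add_right, real_inner_self_eq_norm_sq, he]; norm_num
    simp only [h2]
    have hfin : volume (ball (0 : E) 1 ∩ {w | 0 < g w}) ≠ ⊤ :=
      ((measure_mono inter_subset_left).trans_lt measure_ball_lt_top).ne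
    rw [integral_add hi (integrableOn_const hfin)]
    simp
  rw [h1]
  simp only [smul_eq_mul]
  field_simp
  ring

/-! ## Cauchy-Schwarz on bounded sets -/

theorem l1_le {S : Set E} (hfin : volume S ≠ ⊤) {f : E → E}
    (hf : MemLp f 2 (volume.restrict S)) :
    ∫ x in S, ‖f x‖ ≤ √(volume.real S) * √(sqOn S f) := by
  have h1 : MemLp (fun _ : E => (1 : ℝ)) 2 (volume.restrict S) := by
    have : IsFiniteMeasure (volume.restrict S) := ⟨by simpa using hfin.lt_top⟩
    exact memLp_const 1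
  have h2 : MemLp (fun x => ‖f x‖) 2 (volume.restrict S) := hf.norm
  have h3 := integral_mul_le_Lp_mul_Lq_of_nonneg (μ := volume.restrict S) (p := 2) (q := 2)
    Real.HolderConjugate.two_two (f := fun _ => (1 : ℝ)) (g := fun x => ‖f x‖)
    (Eventually.of_forall fun _ => zero_le_one) (Eventually.of_forall fun _ => norm_nonneg _)
    (by simpa using h1) (by simpa using h2)
  simp only [one_mul, Real.one_rpow, integral_const, smul_eq_mul, mul_one, one_div] at h3
  rw [Real.sqrt_eq_rpow, Real.sqrt_eq_rpow, one_div]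
  rw [measureReal_restrict_apply_univ] at h3
  have h4 : ∀ a : E, (‖f a‖ : ℝ) ^ (2 : ℝ) = ‖f a‖ ^ 2 := fun a => Real.rpow_two _
  simpa [sqOn, h4] using h3

/-! ## Scaling -/

theorem integral_bl {F : Type*} [NormedAddCommGroup F] [NormedSpace ℝ F] (f : E → F) (x : E)
    {s : ℝ} (hs : 0 < s) : ∫ z, f (x + s • z) = (s ^ 3)⁻¹ • ∫ y, f y := by
  have h1 : ∫ z, f (x + s • z) = |(s ^ 3)⁻¹| • ∫ y, f (x + y) := by
    have := Measure.integral_comp_smul (volume : Measure E) (fun y => f (x + y)) s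
    simpa using this
  rw [h1, integral_add_left_eq_self, abs_of_pos (by positivity)]

theorem sqOn_bl' {S : Set E} (hS : MeasurableSet S) (v : E → E) (x : E) {s : ℝ} (hs : 0 < s) :
    sqOn {w | x + s • w ∈ S} (bl v x s) = (s ^ 3)⁻¹ * sqOn S v := by
  have hm : MeasurableSet {w | x + s • w ∈ S} :=
    (by fun_prop : Measurable fun w : E => x + s • w) hS
  unfold sqOn
  rw [← integral_indicator hm, ← integral_indicator hS, ← smul_eq_mul, ← integral_bl _ x hs]
  rfl

theorem curl_scale {A : E → E} (hA : Differentiable ℝ A) (x : E) (s : ℝ) (w : E) :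
    curl (fun w => A (x + s • w)) w = s • curl A (x + s • w) := by
  have h1 : ∀ v, fderiv ℝ (fun w => A (x + s • w)) w v = s • fderiv ℝ A (x + s • w) v := by
    intro v
    have h2 : HasFDerivAt (fun w : E => x + s • w) (s • ContinuousLinearMap.id ℝ E) w :=
      ((hasFDerivAt_id w).const_smul s).const_add x
    have h3 := ((hA (x + s • w)).hasFDerivAt.comp w h2).fderiv
    have h4 : fderiv ℝ (fun w => A (x + s • w)) w = _ := h3
    rw [h4]; simp
  apply ext3 <;>
    simp only [curl_apply_zero, curl_apply_one, curl_apply_two, pd, h1, PiLp.smul_apply,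
      smul_eq_mul] <;> ring

theorem gradient_scale {q : E → ℝ} (hq : Differentiable ℝ q) (x : E) {s : ℝ} (hs : s ≠ 0)
    (w : E) : gradient (fun w => q (x + s • w) / s) w = gradient q (x + s • w) := by
  apply ext_inner_right ℝ
  intro v
  rw [inner_gradient, inner_gradient]
  have h2 : HasFDerivAt (fun w : E => x + s • w) (s • ContinuousLinearMap.id ℝ E) w :=
    ((hasFDerivAt_id w).const_smul s).const_add x
  have h3 := (hq (x + s • w)).hasFDerivAt.comp w h2
  have h4 : HasFDerivAt (fun w => q (x + s • w) / s)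
      (s⁻¹ • (fderiv ℝ q (x + s • w)).comp (s • ContinuousLinearMap.id ℝ E)) w := by
    have := h3.const_smul s⁻¹
    refine this.congr_of_eventuallyEq (Eventually.of_forall fun y => ?_)
    simp [div_eq_inv_mul]
  rw [h4.fderiv]
  simp only [_root_.smul_apply, ContinuousLinearMap.comp_apply,
    ContinuousLinearMap.id_apply, map_smul, smul_eq_mul]
  field_simp

theorem Test.comp_affine {A : E → E} (hA : Test A) (x : E) {s : ℝ} (hs : s ≠ 0) :
    Test (fun w => A (x + s • w)) := by
  refine ⟨hA.1.comp (by fun_prop), ?_⟩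
  have h1 : (fun w => A (x + s • w))
      = A ∘ ((Homeomorph.smulOfNeZero s hs).trans (Homeomorph.addLeft x)) := rfl
  rw [h1]
  exact hA.2.comp_homeomorph _

end Pool.Agent.Helper38.Curl
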