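import Pool.Agent.Helper38.Curl.FinB

open MeasureTheory Set Filter Topology Metric
open scoped ContDiff RealInnerProductSpace

namespace Pool.Agent.Helper38.Curl

theorem setIntegral_shift_le {f : E → ℝ} (hf : Continuous f) (h0 : ∀ x, 0 ≤ f x) {v : E} {τ R : ℝ}
    (hv : ‖v‖ ≤ τ) : ∫ w in ball (0 : E) R, f (w - v) ≤ ∫ w in ball (0 : E) (R + τ), f w := by
  have h1 : ∫ w in ball (0 : E) R, f (w - v) = ∫ w in ball (-v) R, f w := by
    rw [← integral_indicator measurableSet_ball, ← integral_indicator measurableSet_ball,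
      ← integral_sub_right_eq_self ((ball (-v) R).indicator f) v]
    congr 1
    ext w
    have : w ∈ ball (0 : E) R ↔ w - v ∈ ball (-v) R := by
      simp [mem_ball, dist_eq_norm]
    by_cases hw : w ∈ ball (0 : E) R
    · rw [indicator_of_mem hw, indicator_of_mem (this.1 hw)]
    · rw [indicator_of_notMem hw, indicator_of_notMem fun h => hw (this.2 h)]
  rw [h1]
  refine setIntegral_mono_set (integrableOn_ball hf 0 _) (Eventually.of_forall h0)
    (Eventually.of_forall fun w hw => ?_)
  have hw' : ‖w + v‖ < R := by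
    have : w ∈ ball (-v) R := hw
    rwa [mem_ball, dist_eq_norm, sub_neg_eq_add] at this
  change w ∈ ball (0 : E) (R + τ)
  rw [mem_ball_zero_iff]
  calc ‖w‖ = ‖(w + v) - v‖ := by rw [add_sub_cancel_right]
    _ ≤ ‖w + v‖ + ‖v‖ := norm_sub_le _ _
    _ < R + τ := by linarith

theorem int_shift {f : E → ℝ} (hf : Continuous f) (h0 : ∀ x, 0 ≤ f x) {ν : E} (hν : ‖ν‖ = 1)
    {τ : ℝ} (hτ : 0 ≤ τ) (R : ℝ) :
    ∫ w in ball (0 : E) R, ∫ t in (0 : ℝ)..τ, f (w - t • ν)
      ≤ τ * ∫ w in ball (0 : E) (R + τ), f w := by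
  simp only [intervalIntegral.integral_of_le hτ]
  have hc : Continuous fun p : E × ℝ => f (p.1 - p.2 • ν) := hf.comp (by fun_prop)
  have hint : Integrable (fun p : E × ℝ => f (p.1 - p.2 • ν))
      ((volume.restrict (ball (0 : E) R)).prod (volume.restrict (Ioc 0 τ))) := by
    rw [Measure.prod_restrict]
    have h1 : IntegrableOn (fun p : E × ℝ => f (p.1 - p.2 • ν))
        (closedBall (0 : E) R ×ˢ Icc 0 τ) (volume.prod volume) :=
      hc.continuousOn.integrableOn_compact ((isCompact_closedBall _ _).prod isCompact_Icc)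
    exact h1.mono_set (prod_mono ball_subset_closedBall Ioc_subset_Icc_self)
  rw [integral_integral_swap hint]
  have h2 : ∀ t ∈ Ioc (0 : ℝ) τ, ∫ w in ball (0 : E) R, f (w - t • ν)
      ≤ ∫ w in ball (0 : E) (R + τ), f w := by
    intro t ht
    refine setIntegral_shift_le hf h0 ?_
    rw [norm_smul, hν, mul_one, Real.norm_eq_abs, abs_of_pos ht.1]
    exact ht.2
  calc ∫ t in Ioc 0 τ, ∫ w in ball (0 : E) R, f (w - t • ν)
      ≤ ∫ _t in Ioc 0 τ, ∫ w in ball (0 : E) (R + τ), f w := by
        refine setIntegral_mono_on hint.integral_prod_right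
          (integrableOn_const (by simp)) measurableSet_Ioc h2
    _ = τ * ∫ w in ball (0 : E) (R + τ), f w := by
        rw [setIntegral_const, smul_eq_mul, Real.volume_real_Ioc_of_le hτ, sub_zero]

theorem vol_ball_center (z : E) (r : ℝ) :
    volume.real (ball z r) = volume.real (ball (0 : E) r) := by
  simp only [measureReal_def]
  rw [Measure.addHaar_ball_center]

theorem lower_vol {S : Set E} {z : E} {r : ℝ} (h : ball z r ⊆ S) (hS : volume S ≠ ⊤) :
    volume.real (ball (0 : E) r) ≤ volume.real S := by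
  rw [← vol_ball_center z]
  exact measureReal_mono h hS

theorem vol_inter_ne_top {z : E} {r : ℝ} {S : Set E} (h : S ⊆ ball z r) : volume S ≠ ⊤ :=
  ((measure_mono h).trans_lt measure_ball_lt_top).ne

theorem avg_add {D : Set E} (hDb : ∃ R, D ⊆ ball 0 R) {f g : E → ℝ}
    (hf : Continuous f) (hg : Continuous g) (Λ : ℝ) :
    ⨍ y in D, f y = (⨍ y in D, (f y - Λ * g y)) + Λ * ⨍ y in D, g y := by
  obtain ⟨R, hR⟩ := hDb
  have h1 : IntegrableOn f D := (integrableOn_ball hf 0 R).mono_set hR
  have h2 : IntegrableOn g D := (integrableOn_ball hg 0 R).mono_set hR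
  rw [setAverage_eq, setAverage_eq, setAverage_eq, integral_sub h1 (h2.const_mul Λ),
    integral_const_mul]
  simp only [smul_eq_mul]
  ring

theorem step {Ω : Set E} (ho : IsOpen Ω) {x ν : E} {s c₁ T τ R : ℝ}
    (hG : Good Ω x s ν c₁ T τ R) (hν : ‖ν‖ = 1) (hc₁ : 0 < c₁) (hc₁' : c₁ ≤ 1) (hT : 0 ≤ T)
    (hτ : 0 ≤ τ) (hR : 3 + T ≤ R) {A : E → E} {q : E → ℝ} (hA : TestIn Ω A) (hq : TestF q)
    (hx : x ∈ frontier Ω) {z : E} (hz : z ∈ ball (0 : E) 2) (hzf : x + s • z ∈ frontier Ω)
    {u : E → E} (hu : MemLp u 2) {Λ : ℝ} (hΛ : 0 ≤ Λ) (e : E) {m : ℝ}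
    (hm : m = volume.real (ball (0 : E) (c₁ / 2))) :
    |(Th Ω A q s (x + s • z) - Th Ω A q s x) / s
        - Λ * ((⨍ y in ball z 1 ∩ {w | x + s • w ∈ Ω}, ⟪e, y⟫)
          - ⨍ y in ball (0 : E) 1 ∩ {w | x + s • w ∈ Ω}, ⟪e, y⟫)|
      ≤ 2 * (16 * volume.real (ball (0 : E) 1) / m ^ 2)
          * (τ * ∫ w in ball (0 : E) (R + τ), ‖curl (fun w => A (x + s • w)) w‖)
        + (2 * T / m + 8 * volume.real (ball (0 : E) 3) * 6 / m ^ 2)
          * ((∫ w in ball (0 : E) R ∩ {w | x + s • w ∈ Ω},
                ‖Λ • bl u x s w - A (x + s • w) - gradient q (x + s • w)‖)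
            + (τ * ∫ w in ball (0 : E) (R + τ), ‖curl (fun w => A (x + s • w)) w‖)
            + Λ * ∫ w in ball (0 : E) R ∩ {w | x + s • w ∈ Ω}, ‖bl u x s w - e‖) := by
  have hs := hG.spos
  have hm0 : 0 < m := by
    rw [hm]
    exact ENNReal.toReal_pos (measure_ball_pos _ _ (by positivity)).ne' measure_ball_lt_top.ne
  set O : Set E := {w | x + s • w ∈ Ω} with hOdef
  have hO : IsOpen O := ho.preimage (by fun_prop)
  set A' : E → E := fun w => A (x + s • w) with hA'def
  have hA' : Test A' := hA.1.comp_affine x hs.ne'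
  have hA'0 : ∀ w, w ∉ O → A' w = 0 := by
    intro w hw
    exact image_eq_zero_of_notMem_tsupport (f := A) (x := x + s • w) fun h => hw (hA.2 h)
  set q' : E → ℝ := fun w => q (x + s • w) / s with hq'def
  have hq' : ContDiff ℝ 1 q' :=
    ((hq.1.of_le (by exact_mod_cast le_top)).comp (by fun_prop)).div_const s
  set ζ := zet A' ν τ with hζdef
  have hζ : ContDiff ℝ 1 ζ := zet_contDiff hA' ν τ
  have hζ0 : ∀ y ∈ ball (0 : E) 3, y ∉ O → ζ y = 0 := by
    intro y hy hyO
    rw [hζdef]
    unfold zet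
    have : ∀ t ∈ uIcc 0 τ, ⟪A' (y - t • ν), ν⟫ = 0 := by
      intro t ht
      rw [uIcc_of_le hτ] at ht
      rw [hA'0 _ (hG.down y hy hyO t ht), inner_zero_left]
    rw [intervalIntegral.integral_congr this]
    simp
  -- the two ball pairs
  have hz3 : z ∈ ball (0 : E) 3 := ball_subset_ball (by norm_num) hz
  have h03 : (0 : E) ∈ ball (0 : E) 3 := mem_ball_self (by norm_num)
  have hx0 : x + s • (0 : E) ∈ frontier Ω := by simpa using hx
  have hb1 : ∀ p : E, ball (p + (2⁻¹ : ℝ) • ν) (c₁ / 2) ⊆ ball p 1 := by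
    intro p
    apply ball_subset_ball'
    rw [dist_eq_norm, add_sub_cancel_left, norm_smul, hν]
    norm_num
    linarith
  have hb2 : ∀ p : E, ball (p - (2⁻¹ : ℝ) • ν) (c₁ / 2) ⊆ ball p 1 := by
    intro p
    apply ball_subset_ball'
    rw [dist_eq_norm, sub_sub_cancel_left, norm_neg, norm_smul, hν]
    norm_num
    linarith
  have hv1 : ∀ p ∈ ball (0 : E) 3, x + s • p ∈ frontier Ω →
      m ≤ volume.real (ball p 1 ∩ O) := by
    intro p hp hpf
    rw [hm]
    exact lower_vol (subset_inter (hb1 p) (hG.fr₁ p hp hpf)) (vol_inter_ne_top inter_subset_left)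
  have hv2 : ∀ p ∈ ball (0 : E) 3, x + s • p ∈ frontier Ω →
      m ≤ volume.real (ball p 1 \ O) := by
    intro p hp hpf
    rw [hm]
    exact lower_vol (fun w hw => ⟨hb2 p hw, hG.fr₂ p hp hpf hw⟩)
      (vol_inter_ne_top sdiff_subset)
  have hsub : ∀ p ∈ ball (0 : E) 2, ball p 1 ⊆ ball (0 : E) 3 := by
    intro p hp
    apply ball_subset_ball'
    rw [mem_ball] at hp
    linarith
  have h02 : (0 : E) ∈ ball (0 : E) 2 := mem_ball_self (by norm_num)
  -- the estimate of the difference of `A'` and the gradient of `ζ`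
  have hcA : Continuous fun w => curl A' w := (contDiff_curl hA'.1).continuous
  have hgζ : Continuous fun w => gradient ζ w := by
    unfold gradient
    exact (InnerProductSpace.toDual ℝ E).symm.continuous.comp (hζ.continuous_fderiv (by simp))
  have hgq : Continuous fun w => gradient q' w := by
    unfold gradient
    exact (InnerProductSpace.toDual ℝ E).symm.continuous.comp (hq'.continuous_fderiv (by simp))
  set J := τ * ∫ w in ball (0 : E) (R + τ), ‖curl A' w‖ with hJ
  have hfc : Continuous fun w => ‖A' w - gradient ζ w‖ := (hA'.1.continuous.sub hgζ).norm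
  have hI2 : ∫ w in ball (0 : E) R, ‖A' w - gradient ζ w‖ ≤ J := by
    refine le_trans ?_ (int_shift (f := fun w => ‖curl A' w‖) hcA.norm (fun _ => norm_nonneg _)
      hν hτ R)
    refine setIntegral_mono_on (integrableOn_ball hfc 0 R) ?_ measurableSet_ball ?_
    · refine (integrableOn_ball ?_ 0 R)
      exact intervalIntegral.continuous_parametric_intervalIntegral_of_continuous'
        (by fun_prop) 0 τ
    · intro w hw
      have h1 : A' w - gradient ζ w = -∫ t in (0 : ℝ)..τ, cr ν (curl A' (w - t • ν)) := by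
        rw [hζdef, gradient_zet hA', hA'0 _ (hG.bot w hw)]
        abel
      rw [h1, norm_neg]
      refine (intervalIntegral.norm_integral_le_integral_norm hτ).trans ?_
      refine intervalIntegral.integral_mono_on hτ ?_ ?_ ?_
      · apply Continuous.intervalIntegrable
        apply Continuous.norm
        have : Continuous fun c : E => cr ν c := by
          unfold cr
          fun_prop
        exact this.comp (hcA.comp (by fun_prop))
      · apply Continuous.intervalIntegrable
        exact (hcA.comp (by fun_prop)).norm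
      · intro t _
        refine (norm_cr_le _ _).trans ?_
        rw [hν, one_mul]
  have hballR : ball (0 : E) 3 ⊆ ball (0 : E) R := ball_subset_ball (by linarith)
  have hTh : ∀ p ∈ ball (0 : E) 2, x + s • p ∈ frontier Ω →
      |Th O A' q' 1 p - ⨍ y in ball p 1 ∩ O, (q' y + ζ y)|
        ≤ 16 * volume.real (ball (0 : E) 1) / m ^ 2 * J := by
    intro p hp hpf
    have hp3 : p ∈ ball (0 : E) 3 := ball_subset_ball (by norm_num) hp
    have h1 := Th_le hO.measurableSet hA' hq'.continuous hζ (z := p)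
      (fun y hy => hζ0 y (hsub p hp hy.1) hy.2) hm0 (hv1 p hp3 hpf) (hv2 p hp3 hpf)
    rw [vol_ball_center] at h1
    refine h1.trans (mul_le_mul_of_nonneg_left ?_ (by positivity))
    refine le_trans ?_ hI2
    exact setIntegral_mono_set (integrableOn_ball hfc 0 R)
      (Eventually.of_forall fun _ => norm_nonneg _)
      (Eventually.of_forall ((hsub p hp).trans hballR))
  -- the oscillation
  set H : E → ℝ := fun y => (q' y + ζ y) - Λ * ⟪e, y⟫ with hH
  have hHc : ContDiff ℝ 1 H := (hq'.add hζ).sub (contDiff_const.mul (contDiff_const.inner ℝ contDiff_id))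
  have hgH : ∀ w, gradient H w = gradient q' w + gradient ζ w - Λ • e := by
    intro w
    apply ext_inner_right ℝ
    intro v
    rw [inner_sub_left, inner_add_left, inner_gradient, inner_gradient, inner_gradient,
      real_inner_smul_left]
    have h1 : HasFDerivAt q' (fderiv ℝ q' w) w := (hq'.differentiable (by simp) w).hasFDerivAt
    have h2 : HasFDerivAt ζ (fderiv ℝ ζ w) w := (hζ.differentiable (by simp) w).hasFDerivAt
    have h3 : HasFDerivAt (fun y : E => Λ * ⟪e, y⟫) (Λ • (innerSL ℝ e)) w := by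
      have := ((innerSL ℝ e).hasFDerivAt (x := w)).const_mul Λ
      simpa using this
    have h5 : HasFDerivAt H (fderiv ℝ q' w + fderiv ℝ ζ w - Λ • (innerSL ℝ e)) w :=
      (h1.add h2).sub h3
    rw [h5.fderiv]
    simp
  have hosc := osc_le (O := ball (0 : E) R ∩ O) (K := ball (T • ν) 3) (D₁ := ball z 1 ∩ O)
    (D₂ := ball (0 : E) 1 ∩ O) (R := 6) hν hT (measurableSet_ball.inter hO.measurableSet)
    (isBounded_ball.subset inter_subset_left) (convex_ball _ _) measurableSet_ball
    (by
      refine subset_inter ?_ hG.top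
      apply ball_subset_ball'
      rw [dist_zero_right, norm_smul, hν, mul_one, Real.norm_eq_abs, abs_of_nonneg hT]
      linarith)
    (by
      intro y hy y' hy'
      rw [mem_ball] at hy hy'
      rw [← dist_eq_norm]
      linarith [dist_triangle_right y y' (T • ν)])
    (measurableSet_ball.inter hO.measurableSet) (measurableSet_ball.inter hO.measurableSet)
    (by
      intro y hy t ht
      have hy3 := hsub z hz hy.1
      refine ⟨?_, hG.up y hy3 hy.2 t ht⟩
      rw [mem_ball_zero_iff] at hy3 ⊢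
      refine (norm_add_le _ _).trans_lt ?_
      rw [norm_smul, hν, mul_one, Real.norm_eq_abs, abs_of_nonneg ht.1]
      linarith [ht.2])
    (by
      intro y hy t ht
      have hy3 := hsub 0 h02 hy.1
      refine ⟨?_, hG.up y hy3 hy.2 t ht⟩
      rw [mem_ball_zero_iff] at hy3 ⊢
      refine (norm_add_le _ _).trans_lt ?_
      rw [norm_smul, hν, mul_one, Real.norm_eq_abs, abs_of_nonneg ht.1]
      linarith [ht.2])
    (by
      intro y hy
      have hy3 := hsub z hz hy.1
      rw [mem_ball_zero_iff] at hy3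
      rwa [mem_ball, dist_eq_norm, add_sub_cancel_right])
    (by
      intro y hy
      have hy3 := hsub 0 h02 hy.1
      rw [mem_ball_zero_iff] at hy3
      rwa [mem_ball, dist_eq_norm, add_sub_cancel_right])
    hm0 (hv1 z hz3 hzf) (hv1 0 h03 hx0) hHc
  rw [vol_ball_center] at hosc
  set I₁ := ∫ w in ball (0 : E) R ∩ O, ‖Λ • bl u x s w - A' w - gradient q (x + s • w)‖ with hI₁
  set I₃ := ∫ w in ball (0 : E) R ∩ O, ‖bl u x s w - e‖ with hI₃
  have hblu : MemLp (bl u x s) 2 := bl_memLp hu x hs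
  have hRO : volume (ball (0 : E) R ∩ O) ≠ ⊤ := vol_inter_ne_top inter_subset_left
  have hfinm : IsFiniteMeasure (volume.restrict (ball (0 : E) R ∩ O)) :=
    ⟨by simpa using hRO.lt_top⟩
  have hbi : IntegrableOn (bl u x s) (ball (0 : E) R ∩ O) :=
    (hblu.restrict _).integrable (by norm_num)
  have hgqc : Continuous fun w => gradient q (x + s • w) :=
    (continuous_gradient hq.1).continuous.comp (by fun_prop)
  have hi1 : IntegrableOn (fun w => ‖Λ • bl u x s w - A' w - gradient q (x + s • w)‖)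
      (ball (0 : E) R ∩ O) := by
    have h1 : IntegrableOn (fun w => Λ • bl u x s w) (ball (0 : E) R ∩ O) := hbi.smul Λ
    have h2 : IntegrableOn A' (ball (0 : E) R ∩ O) :=
      (integrableOn_ball hA'.1.continuous 0 R).mono_set inter_subset_left
    have h3 : IntegrableOn (fun w => gradient q (x + s • w)) (ball (0 : E) R ∩ O) :=
      (integrableOn_ball hgqc 0 R).mono_set inter_subset_left
    exact ((h1.sub h2).sub h3).norm
  have hi2 : IntegrableOn (fun w => ‖A' w - gradient ζ w‖) (ball (0 : E) R ∩ O) :=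
    (integrableOn_ball hfc 0 R).mono_set inter_subset_left
  have hi3 : IntegrableOn (fun w => ‖bl u x s w - e‖) (ball (0 : E) R ∩ O) :=
    (hbi.sub (integrableOn_const hRO)).norm
  have hHint : ∫ w in ball (0 : E) R ∩ O, ‖gradient H w‖ ≤ I₁ + J + Λ * I₃ := by
    have h1 : ∀ w, ‖gradient H w‖ ≤ ‖Λ • bl u x s w - A' w - gradient q (x + s • w)‖
        + ‖A' w - gradient ζ w‖ + Λ * ‖bl u x s w - e‖ := by
      intro w
      have h2 : gradient H w = -(Λ • bl u x s w - A' w - gradient q (x + s • w))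
          - (A' w - gradient ζ w) + Λ • (bl u x s w - e) := by
        rw [hgH, hq'def, gradient_scale (hq.1.differentiable (by simp)) x hs.ne', smul_sub]
        abel
      rw [h2]
      refine (norm_add_le _ _).trans ?_
      refine add_le_add ((norm_sub_le _ _).trans_eq (by rw [norm_neg])) ?_
      rw [norm_smul, Real.norm_eq_abs, abs_of_nonneg hΛ]
    have hi12 : IntegrableOn (fun w => ‖Λ • bl u x s w - A' w - gradient q (x + s • w)‖
        + ‖A' w - gradient ζ w‖) (ball (0 : E) R ∩ O) := hi1.add hi2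
    have h3 : ∫ w in ball (0 : E) R ∩ O, ‖gradient H w‖
        ≤ ∫ w in ball (0 : E) R ∩ O, (‖Λ • bl u x s w - A' w - gradient q (x + s • w)‖
          + ‖A' w - gradient ζ w‖ + Λ * ‖bl u x s w - e‖) := by
      refine integral_mono_of_nonneg (Eventually.of_forall fun _ => norm_nonneg _)
        (hi12.add (hi3.const_mul Λ)) (Eventually.of_forall h1)
    rw [integral_add hi12 (hi3.const_mul Λ), integral_add hi1 hi2,
      integral_const_mul] at h3
    refine h3.trans ?_
    have h4 : ∫ w in ball (0 : E) R ∩ O, ‖A' w - gradient ζ w‖ ≤ J := by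
      refine le_trans ?_ hI2
      exact setIntegral_mono_set (integrableOn_ball hfc 0 R)
        (Eventually.of_forall fun _ => norm_nonneg _)
        (Eventually.of_forall inter_subset_left)
    linarith
  -- conclusion
  have e1 : Th Ω A q s (x + s • z) / s = Th O A' q' 1 z := Th_scale Ω A q hs x z
  have e2 : Th Ω A q s x / s = Th O A' q' 1 0 := by
    have := Th_scale Ω A q hs x 0
    rw [smul_zero, add_zero] at this
    exact this
  rw [sub_div, e1, e2]
  have hin : Continuous fun y : E => ⟪e, y⟫ := by fun_prop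
  have a1 := avg_add (D := ball z 1 ∩ O) (f := fun y => q' y + ζ y)
    ⟨3, inter_subset_left.trans (hsub z hz)⟩ (hq'.continuous.add hζ.continuous) hin Λ
  have a2 := avg_add (D := ball (0 : E) 1 ∩ O) (f := fun y => q' y + ζ y)
    ⟨3, inter_subset_left.trans (hsub 0 h02)⟩ (hq'.continuous.add hζ.continuous) hin Λ
  have t1 := hTh z hz hzf
  have t2 := hTh 0 h02 hx0
  have t3 := hosc.trans (mul_le_mul_of_nonneg_left hHint (by positivity))
  rw [a1] at t1
  rw [a2] at t2
  set a := ⨍ y in ball z 1 ∩ O, ⟪e, y⟫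
  set b := ⨍ y in ball (0 : E) 1 ∩ O, ⟪e, y⟫
  set c := ⨍ y in ball z 1 ∩ O, ((q' y + ζ y) - Λ * ⟪e, y⟫)
  set d := ⨍ y in ball (0 : E) 1 ∩ O, ((q' y + ζ y) - Λ * ⟪e, y⟫)
  set P := 16 * volume.real (ball (0 : E) 1) / m ^ 2 * J with hP
  set Q := (2 * T / m + 8 * volume.real (ball (0 : E) 3) * 6 / m ^ 2) * (I₁ + J + Λ * I₃) with hQ
  have t3' : |c - d| ≤ Q := t3
  have hfin : |Th O A' q' 1 z - Th O A' q' 1 0 - Λ * (a - b)| ≤ 2 * P + Q := by
    have : Th O A' q' 1 z - Th O A' q' 1 0 - Λ * (a - b)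
        = (Th O A' q' 1 z - (c + Λ * a)) - (Th O A' q' 1 0 - (d + Λ * b)) + (c - d) := by ring
    rw [this]
    refine (abs_add_le _ _).trans ?_
    have := abs_sub (Th O A' q' 1 z - (c + Λ * a)) (Th O A' q' 1 0 - (d + Λ * b))
    linarith
  refine hfin.trans_eq ?_
  rw [hP]; ring

end Pool.Agent.Helper38.Curl
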