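import Pool.Agent.Helper38.Curl.FinC

open MeasureTheory Set Filter Topology Metric
open scoped ContDiff RealInnerProductSpace

namespace Pool.Agent.Helper38.Curl

theorem sqOn_le_sq {S : Set E} {v : E → E} (hv : MemLp v 2) : sqOn S v ≤ sq v := by
  unfold sqOn sq
  exact setIntegral_le_integral (integrable_norm_sq hv) (Eventually.of_forall fun _ => by positivity)

/-- The curl of the blow-up of `A` is small. -/
theorem curl_small {Ω : Set E} {u : E → E} {CU : ℝ} (hG : Growth Ω u CU) (hu : MemLp u 2)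
    {A : E → E} (hA : Test A) {x : E} (hx : x ∈ frontier Ω) {s R : ℝ} (hs : 0 < s) (hR : 0 < R)
    (hsR : s * R ≤ 1) (h1 : sq (fun y => curl A y - u y) ≤ s ^ 6) :
    ∫ w in ball (0 : E) R, ‖curl (fun w => A (x + s • w)) w‖
      ≤ s * (√(volume.real (ball (0 : E) R)) * (√(s ^ 3) + √(CU * R ^ 3))) := by
  have e1 : ∀ w, ‖curl (fun w => A (x + s • w)) w‖ = s * ‖bl (curl A) x s w‖ := by
    intro w
    rw [curl_scale (hA.1.differentiable (by simp)), norm_smul, Real.norm_eq_abs, abs_of_pos hs]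
    rfl
  simp only [e1]
  rw [integral_const_mul]
  refine mul_le_mul_of_nonneg_left ?_ hs.le
  have hcA : MemLp (curl A) 2 := hA.curl.memLp
  have hb : MemLp (bl (curl A) x s) 2 := bl_memLp hcA x hs
  refine (l1_le measure_ball_lt_top.ne (hb.restrict _)).trans ?_
  refine mul_le_mul_of_nonneg_left ?_ (Real.sqrt_nonneg _)
  have hd : MemLp (fun y => curl A y - u y) 2 := hcA.sub hu
  have e2 : bl (curl A) x s = fun w => bl (fun y => curl A y - u y) x s w + bl u x s w := by
    ext1 w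
    simp [bl]
  rw [e2]
  refine (sqrt_sqOn_add_le measurableSet_ball ((bl_memLp hd x hs).restrict _)
    ((bl_memLp hu x hs).restrict _)).trans ?_
  refine add_le_add (Real.sqrt_le_sqrt ?_) (Real.sqrt_le_sqrt ?_)
  · rw [sqOn_bl _ _ _ hs]
    have h2 : sqOn (ball (x + s • (0 : E)) (s * R)) (fun y => curl A y - u y) ≤ s ^ 6 :=
      (sqOn_le_sq hd).trans h1
    calc (s ^ 3)⁻¹ * sqOn (ball (x + s • (0 : E)) (s * R)) (fun y => curl A y - u y)
        ≤ (s ^ 3)⁻¹ * s ^ 6 := mul_le_mul_of_nonneg_left h2 (by positivity)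
      _ = s ^ 3 := by field_simp
  · rw [sqOn_bl _ _ _ hs, smul_zero, add_zero]
    have h2 := hG x hx (s * R) (by positivity) hsR
    calc (s ^ 3)⁻¹ * sqOn (ball x (s * R)) u ≤ (s ^ 3)⁻¹ * (CU * (s * R) ^ 3) :=
          mul_le_mul_of_nonneg_left h2 (by positivity)
      _ = CU * R ^ 3 := by field_simp

theorem pot_small {Ω : Set E} (hΩ : MeasurableSet Ω) {v : E → E} (hv : MemLp v 2) (x : E)
    {s : ℝ} (hs : 0 < s) (R : ℝ) (h2 : sqOn Ω v ≤ s ^ 6) :
    ∫ w in ball (0 : E) R ∩ {w | x + s • w ∈ Ω}, ‖bl v x s w‖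
      ≤ √(volume.real (ball (0 : E) R)) * √(s ^ 3) := by
  have hb : MemLp (bl v x s) 2 := bl_memLp hv x hs
  have hfin : volume (ball (0 : E) R ∩ {w | x + s • w ∈ Ω}) ≠ ⊤ :=
    vol_inter_ne_top inter_subset_left
  refine (l1_le hfin (hb.restrict _)).trans ?_
  have h3 : volume.real (ball (0 : E) R ∩ {w | x + s • w ∈ Ω}) ≤ volume.real (ball (0 : E) R) :=
    measureReal_mono inter_subset_left measure_ball_lt_top.ne
  have h4 : sqOn (ball (0 : E) R ∩ {w | x + s • w ∈ Ω}) (bl v x s) ≤ s ^ 3 := by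
    refine (sqOn_mono inter_subset_right (hb.restrict _)).trans ?_
    rw [sqOn_bl' hΩ v x hs]
    calc (s ^ 3)⁻¹ * sqOn Ω v ≤ (s ^ 3)⁻¹ * s ^ 6 := mul_le_mul_of_nonneg_left h2 (by positivity)
      _ = s ^ 3 := by field_simp
  exact mul_le_mul (Real.sqrt_le_sqrt h3) (Real.sqrt_le_sqrt h4) (Real.sqrt_nonneg _)
    (Real.sqrt_nonneg _)

theorem final_limit {Ω : Set E} {u a : E → E} {Λ : ℝ} (hc : Crit Ω u a Λ) {r₀ c₀ CU : ℝ}
    {F₀ : Finset E} (hT : Trans Ω r₀ c₀ F₀) (hG : Growth Ω u CU) {x : ℕ → E} {s : ℕ → ℝ} {ν : E}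
    {g : E → ℝ} {V : E → E} (h : Bl Ω u r₀ c₀ x s ν g V) {e : E} (he : ‖e‖ = 1)
    (hV : ∀ᵐ z, 0 < g z → V z = e)
    (hinv : ∀ (z : E) (t : ℝ), (0 < g (z + t • e) ↔ 0 < g z) ∧ (g (z + t • e) < 0 ↔ g z < 0))
    {A : ℕ → E → E} {q : ℕ → E → ℝ} (hA : ∀ n, TestIn Ω (A n)) (hq : ∀ n, TestF (q n))
    (h1 : ∀ n, sq (fun y => curl (A n) y - u y) ≤ s n ^ 6)
    (h2 : ∀ n, sqOn Ω (fun y => Λ • u y - A n y - gradient (q n) y) ≤ s n ^ 6)
    {z : ℕ → E} (hz : ∀ n, x n + s n • z n ∈ frontier Ω) (hz' : Tendsto z atTop (𝓝 e)) :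
    Tendsto (fun n => (Th Ω (A n) (q n) (s n) (x n + s n • z n) - Th Ω (A n) (q n) (s n) (x n))
      / s n) atTop (𝓝 Λ) := by
  have hc₀ := hT.cpos
  have hn : Ω.Nonempty := by
    rw [nonempty_iff_ne_empty]
    intro h
    have := hc.vol
    rw [h] at this
    simp at this
  have hn' : Ωᶜ.Nonempty := by
    rw [nonempty_compl]
    intro h
    have := hc.bdd
    rw [h] at this
    exact NormedSpace.unbounded_univ ℝ E this
  have hu : MemLp u 2 := hc.pot.memLp₂
  set c₁ := min c₀ 1 with hc₁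
  have hc₁0 : 0 < c₁ := lt_min hc₀ one_pos
  set T := 3 / c₀ with hTdef
  have hT0 : 0 ≤ T := by positivity
  set R := 3 + T with hRdef
  have hR0 : 0 < R := by positivity
  set τ := R / c₀ with hτdef
  have hτ0 : 0 ≤ τ := by positivity
  set m := volume.real (ball (0 : E) (c₁ / 2)) with hm
  have hs0 : Tendsto s atTop (𝓝 0) := h.slim
  -- the blow-ups are good eventually
  have hgood : ∀ᶠ n in atTop, Good Ω (x n) (s n) ν c₁ T τ R := by
    have h3 : Tendsto (fun n => s n * (4 + T + 2 * τ)) atTop (𝓝 (0 * (4 + T + 2 * τ))) :=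
      hs0.mul_const _
    rw [zero_mul] at h3
    filter_upwards [h3.eventually_lt_const hT.rpos] with n hn1
    refine good hc.isOpen hn hn' hc₀ h.nu (h.mem n) (h.transn n) (h.spos n) (min_le_left _ _)
      hT0 ?_ hτ0 ?_ hn1
    · rw [hTdef]; field_simp; exact le_refl _
    · rw [hτdef]; field_simp; exact le_refl _
  have hz2 : ∀ᶠ n in atTop, z n ∈ ball (0 : E) 2 := by
    have : Tendsto (fun n => ‖z n‖) atTop (𝓝 ‖e‖) := hz'.norm
    rw [he] at this
    filter_upwards [this.eventually_lt_const one_lt_two] with n hn1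
    rwa [mem_ball_zero_iff]
  have hsR : ∀ᶠ n in atTop, s n * (R + τ) ≤ 1 := by
    have h3 : Tendsto (fun n => s n * (R + τ)) atTop (𝓝 (0 * (R + τ))) := hs0.mul_const _
    rw [zero_mul] at h3
    filter_upwards [h3.eventually_lt_const one_pos] with n hn1
    exact hn1.le
  -- the average of the linear function
  set cen : ℕ → ℝ := fun n => (⨍ y in ball (z n) 1 ∩ {w | x n + s n • w ∈ Ω}, ⟪e, y⟫)
    - ⨍ y in ball (0 : E) 1 ∩ {w | x n + s n • w ∈ Ω}, ⟪e, y⟫ with hcen
  have hge : g e = 0 := by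
    have h3 := hinv 0 1
    simp only [zero_add, one_smul, h.g0, lt_irrefl, iff_false, not_lt] at h3
    exact le_antisymm h3.1 h3.2
  have hgc : Continuous g := h.lip.continuous
  have hP : IsOpen {w | 0 < g w} := isOpen_lt continuous_const hgc
  have hposb : ∀ p : E, g p = 0 → 0 < volume.real (ball p 1 ∩ {w | 0 < g w}) := by
    intro p hp
    have ho : IsOpen (ball p 1 ∩ {w | 0 < g w}) := isOpen_ball.inter hP
    have hne : (ball p 1 ∩ {w | 0 < g w}).Nonempty := by
      refine ⟨p + (2⁻¹ : ℝ) • ν, ?_, ?_⟩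
      · rw [mem_ball, dist_eq_norm, add_sub_cancel_left, norm_smul, h.nu]
        norm_num
      · have := (h.trans p hp 2⁻¹ (by norm_num)).1
        have h4 : 0 < c₀ * 2⁻¹ := by positivity
        exact h4.trans_le this
    exact ENNReal.toReal_pos (ho.measure_pos volume hne).ne' (vol_inter_ne_top inter_subset_left)
  have hmeas : ∀ (p : E) n, MeasurableSet (ball p 1 ∩ {w | x n + s n • w ∈ Ω}) := fun p n =>
    measurableSet_ball.inter
      ((hc.isOpen.preimage (by fun_prop : Continuous fun w : E => x n + s n • w)).measurableSet)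
  have hin : Continuous fun y : E => ⟪e, y⟫ := by fun_prop
  have hcen_lim : Tendsto cen atTop (𝓝 1) := by
    rw [← centroid hgc he (fun z t => (hinv z t).1) (hposb 0 h.g0)]
    refine Tendsto.sub ?_ ?_
    · refine setAvg_tendsto (R := 3) (fun n => hmeas _ n)
        (measurableSet_ball.inter hP.measurableSet) ?_
        (ind_tendsto hc hc₀ hn hn' h hz') (hposb e hge) hin
      filter_upwards [hz2] with n hn1
      refine inter_subset_left.trans (ball_subset_ball' ?_)
      rw [mem_ball] at hn1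
      linarith
    · refine setAvg_tendsto (R := 3) (fun n => hmeas _ n)
        (measurableSet_ball.inter hP.measurableSet) ?_
        (ind_tendsto hc hc₀ hn hn' h tendsto_const_nhds) (hposb 0 h.g0) hin
      exact Eventually.of_forall fun n => inter_subset_left.trans (ball_subset_ball (by norm_num))
  -- the error terms
  set J : ℕ → ℝ := fun n => τ * ∫ w in ball (0 : E) (R + τ),
    ‖curl (fun w => A n (x n + s n • w)) w‖ with hJ
  set I₁ : ℕ → ℝ := fun n => ∫ w in ball (0 : E) R ∩ {w | x n + s n • w ∈ Ω},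
    ‖Λ • bl u (x n) (s n) w - A n (x n + s n • w) - gradient (q n) (x n + s n • w)‖ with hI₁
  set I₃ : ℕ → ℝ := fun n => ∫ w in ball (0 : E) R ∩ {w | x n + s n • w ∈ Ω},
    ‖bl u (x n) (s n) w - e‖ with hI₃
  have hs3 : Tendsto (fun n => √(s n ^ 3)) atTop (𝓝 0) := by
    have : Tendsto (fun n => √(s n ^ 3)) atTop (𝓝 √(0 ^ 3)) :=
      (Real.continuous_sqrt.tendsto _).comp (hs0.pow 3)
    simpa using this
  have hJlim : Tendsto J atTop (𝓝 0) := by
    have hup : Tendsto (fun n => τ * (s n * (√(volume.real (ball (0 : E) (R + τ)))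
        * (√(s n ^ 3) + √(CU * (R + τ) ^ 3))))) atTop (𝓝 0) := by
      have := (hs0.mul ((hs3.add_const (√(CU * (R + τ) ^ 3))).const_mul
        (√(volume.real (ball (0 : E) (R + τ)))))).const_mul τ
      simpa using this
    refine tendsto_of_tendsto_of_tendsto_of_le_of_le' tendsto_const_nhds hup
      (Eventually.of_forall fun n => ?_) ?_
    · exact mul_nonneg hτ0 (integral_nonneg fun _ => norm_nonneg _)
    · filter_upwards [hsR] with n hn1
      exact mul_le_mul_of_nonneg_left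
        (curl_small hG hu (hA n).1 (h.mem n) (h.spos n) (by positivity) hn1 (h1 n)) hτ0
  have hI₁lim : Tendsto I₁ atTop (𝓝 0) := by
    have hup : Tendsto (fun n => √(volume.real (ball (0 : E) R)) * √(s n ^ 3)) atTop (𝓝 0) := by
      have := hs3.const_mul (√(volume.real (ball (0 : E) R)))
      simpa using this
    refine squeeze_zero (fun n => integral_nonneg fun _ => norm_nonneg _) (fun n => ?_) hup
    have hv : MemLp (fun y => Λ • u y - A n y - gradient (q n) y) 2 :=
      ((hu.const_smul Λ).sub (hA n).1.memLp).sub (hq n).gradient.memLp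
    exact pot_small hc.isOpen.measurableSet hv (x n) (h.spos n) R (h2 n)
  have hI₃lim : Tendsto I₃ atTop (𝓝 0) := Bl.ell1 hc hc₀ hG h hV R
  -- the main estimate
  set C₁ := 2 * (16 * volume.real (ball (0 : E) 1) / m ^ 2)
  set C₂ := 2 * T / m + 8 * volume.real (ball (0 : E) 3) * 6 / m ^ 2
  have hmain : ∀ᶠ n in atTop, |(Th Ω (A n) (q n) (s n) (x n + s n • z n)
      - Th Ω (A n) (q n) (s n) (x n)) / s n - Λ * cen n|
        ≤ C₁ * J n + C₂ * (I₁ n + J n + Λ * I₃ n) := by
    filter_upwards [hgood, hz2] with n hn1 hn2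
    exact step hc.isOpen hn1 h.nu hc₁0 (min_le_right _ _) hT0 hτ0 (le_refl _) (hA n) (hq n)
      (h.mem n) hn2 (hz n) hu hc.pos.le e rfl
  have herr : Tendsto (fun n => C₁ * J n + C₂ * (I₁ n + J n + Λ * I₃ n)) atTop (𝓝 0) := by
    have := (hJlim.const_mul C₁).add (((hI₁lim.add hJlim).add (hI₃lim.const_mul Λ)).const_mul C₂)
    simpa using this
  have hdiff : Tendsto (fun n => (Th Ω (A n) (q n) (s n) (x n + s n • z n)
      - Th Ω (A n) (q n) (s n) (x n)) / s n - Λ * cen n) atTop (𝓝 0) := by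
    rw [tendsto_zero_iff_abs_tendsto_zero]
    exact tendsto_of_tendsto_of_tendsto_of_le_of_le' tendsto_const_nhds herr
      (Eventually.of_forall fun _ => abs_nonneg _) hmain
  have := hdiff.add (hcen_lim.const_mul Λ)
  simpa using this

end Pool.Agent.Helper38.Curl
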