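import Pool.Agent.Helper38.Curl.Rep
import Pool.Agent.Helper94.Curl.MollA
import Pool.Agent.Helper22.Curl.M2
import Pool.Agent.Helper36.Curl.M2
import Pool.Agent.Helper89.Curl.WK
import Pool.Agent.Helper40.Curl.KC
import Pool.Agent.Helper66.Curl.P1
import Pool.Agent.Helper10.Curl.Cut
import Pool.Agent.Helper42.Curl.WC
import Pool.Agent.Helper41.Curl.WCont
import Pool.Agent.Helper40.Curl.HB
import Pool.Agent.Helper93.Curl.Harm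
import Pool.Agent.Helper80.Curl.SMax
import Pool.Agent.Helper3.Curl.SC
import Pool.Agent.Helper96.Curl.Liou2
import Pool.Agent.Helper27.Curl.PosHelicity
import Pool.Agent.Helper42.Curl.K2
import Pool.Agent.Helper40.Curl.K3
import Pool.Agent.Helper11.Curl.FG
import Pool.Agent.Helper80.Curl.Balls
import Pool.Agent.Helper43.Curl.FP
import Pool.Agent.Helper84.Curl.FillOf
import Pool.Agent.Helper94.Curl.Geo1
import Pool.Agent.Helper94.Curl.Sd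
import Pool.Agent.Helper94.Curl.Geo2
import Pool.Agent.Helper94.Curl.BlowGeo
import Pool.Agent.Helper36.Curl.V1
import Pool.Agent.Helper36.Curl.V2
import Pool.Agent.Helper48.Curl.Growth
import Pool.Agent.Helper36.Curl.BL1
import Pool.Agent.Helper36.Curl.BL2
import Pool.Agent.Helper10.Curl.Tube
import Pool.Agent.Helper43.Curl.Low
import Pool.Agent.Helper75.Curl.Ext
import Pool.Agent.Helper32.Curl.Inv
import Pool.Agent.Helper41.Curl.Upper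
import Pool.Agent.Helper77.Curl.Pair
import Pool.Agent.Helper37.Curl.F2
import Pool.Agent.Helper66.Curl.F3
import Pool.Agent.Helper32.Curl.Zet
import Pool.Agent.Helper45.Curl.Ell1

open MeasureTheory Set Filter Topology Metric
open scoped ContDiff RealInnerProductSpace

namespace Pool.Agent.Helper38.Curl

/-! ## K: the mollifiers -/

theorem kap_contDiff {r : ℝ} (hr : 0 < r) : ContDiff ℝ ∞ (kap r) :=
  Pool.Agent.Helper94.Curl.kap_contDiff hr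
theorem kap_nonneg {r : ℝ} (hr : 0 < r) (y : E) : 0 ≤ kap r y :=
  Pool.Agent.Helper94.Curl.kap_nonneg hr y
theorem kap_pos {r : ℝ} {y : E} (hy : ‖y‖ < r) : 0 < kap r y :=
  Pool.Agent.Helper94.Curl.kap_pos hy
theorem kap_eq_zero {r : ℝ} (hr : 0 < r) {y : E} (hy : r ≤ ‖y‖) : kap r y = 0 :=
  Pool.Agent.Helper94.Curl.kap_eq_zero hr hy
theorem integral_kap {r : ℝ} (hr : 0 < r) : ∫ y, kap r y = 1 :=
  Pool.Agent.Helper94.Curl.integral_kap hr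
theorem kap_radial {r : ℝ} {y z : E} (h : ‖y‖ = ‖z‖) : kap r y = kap r z :=
  Pool.Agent.Helper94.Curl.kap_radial h
theorem kap_scale {r s : ℝ} (hr : 0 < r) (hs : 0 < s) (y : E) :
    kap (s * r) (s • y) = (s ^ 3)⁻¹ * kap r y :=
  Pool.Agent.Helper94.Curl.kap_scale hr hs y

theorem mol_contDiff {v : E → E} (hv : LocallyIntegrable v) {r : ℝ} (hr : 0 < r) :
    ContDiff ℝ ∞ (mol r v) :=
  Pool.Agent.Helper94.Curl.mol_contDiff hv hr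
theorem mol_memLp {v : E → E} (hv : MemLp v 2) {r : ℝ} (hr : 0 < r) : MemLp (mol r v) 2 :=
  Pool.Agent.Helper22.Curl.mol_memLp hv hr
theorem sq_mol_le {v : E → E} (hv : MemLp v 2) {r : ℝ} (hr : 0 < r) : sq (mol r v) ≤ sq v :=
  Pool.Agent.Helper22.Curl.sq_mol_le hv hr
theorem mol_tendsto {v : E → E} (hv : MemLp v 2) :
    Tendsto (fun r => sq (fun x => mol r v x - v x)) (𝓝[>] 0) (𝓝 0) :=
  Pool.Agent.Helper22.Curl.mol_tendsto hv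
theorem mol_van {C : Set E} {v : E → E} (h : VanOff C v) {r : ℝ} (hr : 0 < r) {x : E}
    (hx : x ∉ cthickening r C) : mol r v x = 0 :=
  Pool.Agent.Helper94.Curl.mol_van h hr hx
theorem mol_test {v : E → E} (hv : MemLp v 2) {R : ℝ} (h : VanOff (closedBall 0 R) v) {r : ℝ}
    (hr : 0 < r) : Test (mol r v) :=
  Pool.Agent.Helper94.Curl.mol_test hv h hr
theorem ip_mol_comm {v w : E → E} (hv : MemLp v 2) (hw : MemLp w 2) {r : ℝ} (hr : 0 < r) :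
    ip (mol r v) w = ip v (mol r w) :=
  Pool.Agent.Helper36.Curl.ip_mol_comm hv hw hr

theorem norm_mol_le : ∃ C : ℝ, 0 < C ∧ ∀ (r : ℝ) (x : E) (v : E → E), 0 < r →
    MemLp v 2 (volume.restrict (ball x r)) →
      ‖mol r v x‖ ^ 2 ≤ C * (r ^ 3)⁻¹ * sqOn (ball x r) v :=
  Pool.Agent.Helper36.Curl.norm_mol_le

/-! ## WK: simple facts on weak convergence -/

theorem wk_sqOn_le {v : ℕ → E → E} {V : E → E} (hw : WkTo v V) (hv : ∀ n, MemLp (v n) 2)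
    {S : Set E} (hS : MeasurableSet S) (hSb : Bornology.IsBounded S)
    (hV : MemLp V 2 (volume.restrict S)) {C : ℝ} (hC : ∀ᶠ n in atTop, sqOn S (v n) ≤ C) :
    sqOn S V ≤ C :=
  Pool.Agent.Helper89.Curl.wk_sqOn_le hw hv hS hSb hV hC

theorem wk_mol {v : ℕ → E → E} {V : E → E} (hw : WkTo v V) (hv : ∀ n, MemLp (v n) 2)
    (hV : ∀ R, MemLp V 2 (volume.restrict (ball 0 R)))
    (hb : ∀ R, ∃ C, ∀ᶠ n in atTop, sqOn (ball 0 R) (v n) ≤ C) {r : ℕ → ℝ} {r' : ℝ} (hr' : 0 < r')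
    (hr : Tendsto r atTop (𝓝 r')) {z : ℕ → E} {z' : E} (hz : Tendsto z atTop (𝓝 z')) :
    Tendsto (fun n => mol (r n) (v n) (z n)) atTop (𝓝 (mol r' V z')) :=
  Pool.Agent.Helper89.Curl.wk_mol hw hv hV hb hr' hr hz

/-! ## KC: mollification and curl -/

theorem curl_mol {a v : E → E} (h : Pot a v) {r : ℝ} (hr : 0 < r) :
    curl (mol r a) = mol r v :=
  Pool.Agent.Helper40.Curl.curl_mol h hr

/-! ## SYM -/

theorem pot_symm {a v b w : E → E} (h : Pot a v) (h' : Pot b w) : ip v b = ip a w :=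
  Pool.Agent.Helper40.Curl.pot_symm_of (fun _ hv => mol_tendsto hv) h h'

/-! ## P1 -/

theorem pot_exists {c : E} {ρ : ℝ} (hρ : 0 < ρ) {v : E → E} (hv : Sol (closedBall c ρ) v) :
    ∃ a, Pot a v ∧ VanOff (closedBall c ρ) a ∧ sq a ≤ 4 * ρ ^ 2 * sq v :=
  Pool.Agent.Helper66.Curl.pot_exists hρ hv

/-! ## CUT -/

theorem cut_exists : ∃ C₀ : ℝ, 0 < C₀ ∧ ∀ (z : E) (τ : ℝ), 0 < τ → ∀ f : E → E,
    MemLp f 2 (volume.restrict (ball z (2 * τ))) → DivFreeIn (ball z (2 * τ)) f →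
    ∃ a r, Pot a r ∧ VanOff (closedBall z (2 * τ)) r ∧ (∀ᵐ x, x ∈ ball z τ → r x = f x) ∧
      sq r ≤ C₀ * sqOn (ball z (2 * τ)) f :=
  Pool.Agent.Helper10.Curl.cut_exists

/-! ## WC: weak compactness -/

theorem weak_compact {v : ℕ → E → E} (hv : ∀ n, MemLp (v n) 2)
    (hb : ∀ R, ∃ C, ∀ᶠ n in atTop, sqOn (ball 0 R) (v n) ≤ C) :
    ∃ σ : ℕ → ℕ, StrictMono σ ∧ ∃ V : E → E, (∀ R, MemLp V 2 (volume.restrict (ball 0 R))) ∧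
      WkTo (fun n => v (σ n)) V :=
  Pool.Agent.Helper42.Curl.weak_compact hv hb

/-! ## WCONT: weak continuity of the helicity -/

theorem wcont {R C : ℝ} {v a : ℕ → E → E} {V b : E → E} (h : ∀ n, Pot (a n) (v n))
    (hv : ∀ n, VanOff (closedBall 0 R) (v n)) (ha : ∀ n, VanOff (closedBall 0 R) (a n))
    (cv : ∀ n, sq (v n) ≤ C) (ca : ∀ n, sq (a n) ≤ C) (hb : Pot b V) (hw : WkTo v V) :
    Tendsto (fun n => ip (v n) (a n)) atTop (𝓝 (ip V b)) :=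
  Pool.Agent.Helper41.Curl.wcont h hv ha cv ca hb hw

/-! ## HB: decomposition on balls -/

theorem hodge_ball {z : E} {ρ : ℝ} (hρ : 0 < ρ) {v : E → E}
    (hv : MemLp v 2 (volume.restrict (ball z ρ))) (hd : DivFreeIn (ball z ρ) v) {α : ℝ}
    (hα : 0 ≤ α) (h : ∀ r, Sol (closedBall z ρ) r → |ip v r| ≤ α * √(sq r)) :
    ∃ w, MemLp w 2 ∧ VanOff (closedBall z ρ) w ∧ sq w ≤ α ^ 2 ∧
      WH (ball z ρ) (fun x => v x - w x) :=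
  Pool.Agent.Helper40.Curl.hodge_ball hρ hv hd hα h

/-! ## HARM: the harmonic representative -/

theorem harm_rep {U : Set E} (hU : IsOpen U) {V : E → E}
    (hV : ∀ z ρ, closedBall z ρ ⊆ U → MemLp V 2 (volume.restrict (closedBall z ρ)))
    (h : ∀ z ρ, 0 < ρ → closedBall z ρ ⊆ U → WH (ball z ρ) V) :
    ∃ F : E → E, ContinuousOn F U ∧ (∀ᵐ x, x ∈ U → F x = V x) ∧
      ∀ x r, 0 < r → closedBall x r ⊆ U → F x = mol r V x :=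
  Pool.Agent.Helper93.Curl.harm_rep_of @mol_tendsto hU hV h

/-! ## SMAX: the strong maximum principle -/

theorem strong_max {U : Set E} (hU : IsOpen U) (hc : IsPreconnected U) {F V : E → E}
    (hF : ContinuousOn F U) (hae : ∀ᵐ x, x ∈ U → F x = V x)
    (hm : ∀ x r, 0 < r → closedBall x r ⊆ U → F x = mol r V x) {ℓ : ℝ}
    (hle : ∀ x ∈ U, ‖F x‖ ≤ ℓ) {x₀ : E} (hx₀ : x₀ ∈ U) (heq : ‖F x₀‖ = ℓ) :
    ∀ x ∈ U, F x = F x₀ :=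
  Pool.Agent.Helper80.Curl.strong_max hU hc hF hae hm hle hx₀ heq

/-! ## SC: strong convergence -/

theorem strong_conv {z : E} {ρ : ℝ} (hρ : 0 < ρ) {v : ℕ → E → E} {V : E → E}
    (hv : ∀ n, MemLp (v n) 2) (hd : ∀ n η, TestF η → ∫ x, fderiv ℝ η x (v n x) = 0) {C : ℝ}
    (hC : ∀ᶠ n in atTop, sqOn (ball z ρ) (v n) ≤ C)
    (hα : ∀ ε, 0 < ε → ∀ᶠ n in atTop, ∀ r, Sol (closedBall z ρ) r →
      |ip (v n) r| ≤ ε * √(sq r))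
    (hV : MemLp V 2 (volume.restrict (closedBall z ρ))) (hw : WkTo v V) :
    Tendsto (fun n => sqOn (ball z (ρ / 2)) (fun x => v n x - V x)) atTop (𝓝 0) ∧
      WH (ball z ρ) V :=
  Pool.Agent.Helper3.Curl.strong_conv norm_mol_le @hodge_ball @harm_rep hρ hv hd hC hα hV hw

/-! ## LIOU: compactness and the Liouville theorem -/

theorem liouville_compact {v : ℕ → E → E} {y : ℕ → E} {c K : ℝ} (hc : 0 < c)
    (hv : ∀ n, MemLp (v n) 2) (hd : ∀ n η, TestF η → ∫ x, fderiv ℝ η x (v n x) = 0)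
    (hg : ∀ R, 1 ≤ R → ∀ᶠ n in atTop, sqOn (ball 0 R) (v n) ≤ K * R ^ 3)
    (hy : ∀ n, ‖y n‖ ≤ 1) (hz : ∀ n, ∀ᵐ x, x ∈ ball (y n) c → v n x = 0)
    (hα : ∀ R, 0 < R → ∀ ε, 0 < ε → ∀ᶠ n in atTop, ∀ r, Sol (closedBall 0 R) r →
      |ip (v n) r| ≤ ε * √(sq r)) :
    Tendsto (fun n => sqOn (ball 0 1) (v n)) atTop (𝓝 0) :=
  Pool.Agent.Helper96.Curl.liouville_compact @strong_conv @harm_rep @wk_sqOn_le hc hv hd hg hy hz hα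

/-! ## K1, K2, K3: spectral theory -/

theorem exists_pos_helicity {Ω : Set E} (ho : IsOpen Ω) (hn : Ω.Nonempty) :
    ∃ A, TestIn Ω A ∧ 0 < ip (curl A) A :=
  Pool.Agent.Helper27.Curl.exists_pos_helicity ho hn

theorem exists_maximizer {Ω : Set E} (ho : IsOpen Ω) (hb : Bornology.IsBounded Ω)
    (hn : Ω.Nonempty) :
    ∃ Λ : ℝ, 0 < Λ ∧ (∀ A, TestIn Ω A → ip (curl A) A ≤ Λ * sq (curl A)) ∧
      ∃ u a, Pot a u ∧ (∀ x, x ∉ Ω → u x = 0) ∧ sq u = 3 ∧ ip u a = 3 * Λ ∧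
        ∀ ε, 0 < ε → ∃ A, TestIn Ω A ∧ sq (fun x => curl A x - u x) < ε :=
  Pool.Agent.Helper42.Curl.exists_maximizer @exists_pos_helicity @pot_symm @pot_exists @wcont
    ho hb hn

theorem isMuOne_of_maximizer {Ω : Set E} (ho : IsOpen Ω) (hb : Bornology.IsBounded Ω) {Λ : ℝ}
    (hΛ : 0 < Λ) (hmax : ∀ A, TestIn Ω A → ip (curl A) A ≤ Λ * sq (curl A)) {u a : E → E}
    (hp : Pot a u) (hv : ∀ x, x ∉ Ω → u x = 0) (hs : sq u = 3) (hh : ip u a = 3 * Λ)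
    (hK : ∀ ε, 0 < ε → ∃ A, TestIn Ω A ∧ sq (fun x => curl A x - u x) < ε) :
    IsMuOne Ω Λ⁻¹ :=
  Pool.Agent.Helper40.Curl.isMuOne_of_maximizer_of @pot_symm @pot_exists ho hb hΛ hmax hp hv hs hh hK

/-! ## FG, FV, FP, FILL: filling -/

theorem lipDom_ball_diff {R : ℝ} (hR : 0 < R) (t : Finset (E × ℝ)) (hpos : ∀ p ∈ t, 0 < p.2)
    (hin : ∀ p ∈ t, closedBall p.1 p.2 ⊆ ball 0 R)
    (hd : (t : Set (E × ℝ)).PairwiseDisjoint fun p => closedBall p.1 p.2) :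
    LipDom (ball 0 R \ ⋃ p ∈ t, closedBall p.1 p.2) :=
  Pool.Agent.Helper11.Curl.lipDom_ball_diff hR t hpos hin hd

theorem exists_balls {O : Set E} (hO : IsOpen O) (hf : volume O ≠ ⊤) {ε : ENNReal} (hε : 0 < ε) :
    ∃ t : Finset (E × ℝ), (∀ p ∈ t, 0 < p.2) ∧ (∀ p ∈ t, closedBall p.1 p.2 ⊆ O) ∧
      ((t : Set (E × ℝ)).PairwiseDisjoint fun p => closedBall p.1 p.2) ∧
      volume (O \ ⋃ p ∈ t, closedBall p.1 p.2) < ε :=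
  Pool.Agent.Helper80.Curl.exists_balls hO hf hε

theorem fix_pot {R : ℝ} (t : Finset (E × ℝ)) (hpos : ∀ p ∈ t, 0 < p.2)
    (hin : ∀ p ∈ t, closedBall p.1 p.2 ⊆ ball 0 R)
    (hd : (t : Set (E × ℝ)).PairwiseDisjoint fun p => closedBall p.1 p.2)
    {b : E → E} (hb : TestIn (ball 0 R) b) {δ : ℝ} (hδ : 0 < δ)
    (h : ∀ p ∈ t, ∀ x ∈ ball p.1 (p.2 + δ), curl b x = 0) :
    ∃ A, TestIn (ball 0 R \ ⋃ p ∈ t, closedBall p.1 p.2) A ∧ curl A = curl b ∧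
      ip (curl A) A = ip (curl b) b :=
  Pool.Agent.Helper43.Curl.fix_pot t hpos hin hd hb hδ h

theorem fill {Λ : ℝ} (hΛ : 0 < Λ)
    (hmin : ∀ Ω', LipDom Ω' → volume Ω' = 1 → ∀ A, TestIn Ω' A →
      ip (curl A) A ≤ Λ * sq (curl A)) {C : Set E} (hC : IsCompact C) {b w : E → E}
    (hp : Pot b w) (hv : VanOff C w) :
    ip w b ≤ Λ * (volume.real C) ^ (1 / 3 : ℝ) * sq w :=
  Pool.Agent.Helper84.Curl.fill_of @mol_memLp @sq_mol_le @mol_tendsto @lipDom_ball_diff hΛ hmin hC hp hv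

/-! ## G1, G2, G3, G4: geometry -/

theorem trans_of_lipDom {Ω : Set E} (h : LipDom Ω) : ∃ r₀ c₀ F, Trans Ω r₀ c₀ F :=
  Pool.Agent.Helper94.Curl.trans_of_lipDom h

theorem lipschitz_sd (Ω : Set E) (hn : Ω.Nonempty) (hn' : Ωᶜ.Nonempty) (x y : E) :
    |sd Ω x - sd Ω y| ≤ ‖x - y‖ :=
  Pool.Agent.Helper94.Curl.lipschitz_sd Ω hn hn' x y
theorem sd_pos_iff {Ω : Set E} (ho : IsOpen Ω) (hn : Ω.Nonempty) (hn' : Ωᶜ.Nonempty) {x : E} :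
    0 < sd Ω x ↔ x ∈ Ω :=
  Pool.Agent.Helper94.Curl.sd_pos_iff ho hn hn'
theorem sd_neg_iff {Ω : Set E} (ho : IsOpen Ω) (hn : Ω.Nonempty) (hn' : Ωᶜ.Nonempty) {x : E} :
    sd Ω x < 0 ↔ x ∉ closure Ω :=
  Pool.Agent.Helper94.Curl.sd_neg_iff ho hn hn'
theorem sd_eq_zero_iff {Ω : Set E} (ho : IsOpen Ω) (hn : Ω.Nonempty) (hn' : Ωᶜ.Nonempty) {x : E} :
    sd Ω x = 0 ↔ x ∈ frontier Ω :=
  Pool.Agent.Helper94.Curl.sd_eq_zero_iff ho hn hn'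
theorem exists_frontier_dist {Ω : Set E} (ho : IsOpen Ω) (hn : Ω.Nonempty) (hn' : Ωᶜ.Nonempty)
    (x : E) : ∃ y ∈ frontier Ω, ‖x - y‖ = |sd Ω x| :=
  Pool.Agent.Helper94.Curl.exists_frontier_dist ho hn hn' x

theorem frontier_null {Ω : Set E} (ho : IsOpen Ω) (hb : Bornology.IsBounded Ω)
    (hn : Ω.Nonempty) {r₀ c₀ : ℝ} {F : Finset E} (h : Trans Ω r₀ c₀ F) :
    volume (frontier Ω) = 0 :=
  Pool.Agent.Helper94.Curl.frontier_null ho hb hn h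

theorem blow_geo {Ω : Set E} (ho : IsOpen Ω) (hb : Bornology.IsBounded Ω) (hn : Ω.Nonempty)
    {r₀ c₀ : ℝ} {F : Finset E} (h : Trans Ω r₀ c₀ F) {x : ℕ → E} (hx : ∀ n, x n ∈ frontier Ω)
    {s : ℕ → ℝ} (hs : ∀ n, 0 < s n) (hs0 : Tendsto s atTop (𝓝 0)) :
    ∃ σ : ℕ → ℕ, StrictMono σ ∧ ∃ (ν : E) (g : E → ℝ), ‖ν‖ = 1 ∧ LipschitzWith 1 g ∧ g 0 = 0 ∧
      (∀ R, TendstoUniformlyOn (fun n z => sd Ω (x (σ n) + s (σ n) • z) / s (σ n)) g atTop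
        (closedBall 0 R)) ∧
      (∀ z, g z = 0 → ∀ t, 0 ≤ t → c₀ * t ≤ g (z + t • ν) ∧ g (z - t • ν) ≤ -(c₀ * t)) ∧
      (∀ n, ∀ y ∈ frontier Ω ∩ ball (x (σ n)) r₀, ∀ t ∈ Icc (0 : ℝ) r₀,
        c₀ * t ≤ sd Ω (y + t • ν) ∧ sd Ω (y - t • ν) ≤ -(c₀ * t)) :=
  Pool.Agent.Helper94.Curl.blow_geo ho hb hn h hx hs hs0

theorem limit_null {c₀ : ℝ} (hc : 0 < c₀) {ν : E} {g : E → ℝ} (hν : ‖ν‖ = 1)
    (hl : LipschitzWith 1 g)
    (ht : ∀ z, g z = 0 → ∀ t, 0 ≤ t → c₀ * t ≤ g (z + t • ν) ∧ g (z - t • ν) ≤ -(c₀ * t)) :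
    volume {z | g z = 0} = 0 :=
  Pool.Agent.Helper94.Curl.limit_null hc hν hl ht

theorem limit_preconnected {c₀ : ℝ} (hc : 0 < c₀) {ν : E} {g : E → ℝ} (hν : ‖ν‖ = 1)
    (hl : LipschitzWith 1 g) (h0 : g 0 = 0)
    (ht : ∀ z, g z = 0 → ∀ t, 0 ≤ t → c₀ * t ≤ g (z + t • ν) ∧ g (z - t • ν) ≤ -(c₀ * t)) :
    IsPreconnected {z | 0 < g z} :=
  Pool.Agent.Helper94.Curl.limit_preconnected hc hν hl h0 ht

/-! ## V: variations -/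

theorem Crit.var_in {Ω : Set E} {u a : E → E} {Λ : ℝ} (hc : Crit Ω u a Λ) {b r : E → E}
    (hp : Pot b r) (hv : VanOff (closure Ω) r) : ip u b = Λ * ip u r :=
  Pool.Agent.Helper36.Curl.var_in (fun _ hv => mol_tendsto hv) hc hp hv

theorem Crit.var_out {Ω : Set E} {u a : E → E} {Λ : ℝ} (hc : Crit Ω u a Λ) {b r : E → E}
    (hp : Pot b r) {Q : Set E} (hQ : IsCompact Q) (hv : VanOff Q r) :
    2 * (ip u b - Λ * ip u r) ≤ Λ / 3 * volume.real (Q \ closure Ω) * sq (fun x => u x + r x)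
      + Λ * sq r - ip r b :=
  Pool.Agent.Helper36.Curl.var_out (fun _ hv => mol_tendsto hv) hc hp hQ hv

theorem Crit.var_needle {Ω : Set E} {u a : E → E} {Λ : ℝ} (hc : Crit Ω u a Λ) {b r : E → E}
    (hp : Pot b r) (hv : VanOff (closure Ω) r) {Z : Set E} (hZ : IsOpen Z) (hZΩ : Z ⊆ Ω)
    (h0 : ∀ᵐ x, x ∈ Z → u x + r x = 0) :
    Λ / 3 * volume.real Z * sq (fun x => u x + r x) ≤ Λ * sq r - ip r b :=
  Pool.Agent.Helper36.Curl.var_needle (fun _ hv => mol_tendsto hv) hc hp hv hZ hZΩ h0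

theorem Pot.scale {b r : E → E} (hp : Pot b r) (x : E) {s : ℝ} (hs : 0 < s) :
    Pot (fun y => s • b (s⁻¹ • (y - x))) (fun y => r (s⁻¹ • (y - x))) :=
  Pool.Agent.Helper36.Curl.Pot_scale hp x hs

theorem sq_scale (r : E → E) (x : E) {s : ℝ} (hs : 0 < s) :
    sq (fun y => r (s⁻¹ • (y - x))) = s ^ 3 * sq r :=
  Pool.Agent.Helper36.Curl.sq_scale r x hs

theorem ip_scale (u r : E → E) (x : E) {s : ℝ} (hs : 0 < s) :
    ip u (fun y => r (s⁻¹ • (y - x))) = s ^ 3 * ip (bl u x s) r :=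
  Pool.Agent.Helper36.Curl.ip_scale u r x hs

theorem sqOn_bl (u : E → E) (x z : E) {s : ℝ} (hs : 0 < s) (R : ℝ) :
    sqOn (ball z R) (bl u x s) = (s ^ 3)⁻¹ * sqOn (ball (x + s • z) (s * R)) u :=
  Pool.Agent.Helper36.Curl.sqOn_bl u x z hs R

theorem bl_memLp {u : E → E} (hu : MemLp u 2) (x : E) {s : ℝ} (hs : 0 < s) :
    MemLp (bl u x s) 2 :=
  Pool.Agent.Helper36.Curl.bl_memLp hu x hs

theorem mol_bl (u : E → E) (x z : E) {s r : ℝ} (hs : 0 < s) (hr : 0 < r) :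
    mol r (bl u x s) z = mol (s * r) u (x + s • z) :=
  Pool.Agent.Helper94.Curl.mol_bl u x z hs hr

theorem bl_divFree {u : E → E} (hu : ∀ η, TestF η → ∫ x, fderiv ℝ η x (u x) = 0) (x : E) {s : ℝ}
    (hs : 0 < s) (η : E → ℝ) (hη : TestF η) : ∫ z, fderiv ℝ η z (bl u x s z) = 0 :=
  Pool.Agent.Helper36.Curl.bl_divFree hu x hs η hη

theorem Crit.scale_in {Ω : Set E} {u a : E → E} {Λ : ℝ} (hc : Crit Ω u a Λ) {b r : E → E}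
    (hp : Pot b r) (x : E) {s : ℝ} (hs : 0 < s) (hv : VanOff {z | x + s • z ∈ closure Ω} r) :
    s * ip (bl u x s) b = Λ * ip (bl u x s) r :=
  Pool.Agent.Helper36.Curl.scale_in (fun _ hv => mol_tendsto hv) hc hp x hs hv

theorem Crit.scale_out {Ω : Set E} {u a : E → E} {Λ : ℝ} (hc : Crit Ω u a Λ) {b r : E → E}
    (hp : Pot b r) (x : E) {s : ℝ} (hs : 0 < s) {Q : Set E} (hQ : IsCompact Q) (hv : VanOff Q r) :
    2 * (s * ip (bl u x s) b - Λ * ip (bl u x s) r)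
      ≤ Λ / 3 * volume.real (Q \ {z | x + s • z ∈ closure Ω}) * (√3 + √(s ^ 3 * sq r)) ^ 2
        + Λ * sq r + s * |ip r b| :=
  Pool.Agent.Helper36.Curl.scale_out (fun _ hv => mol_tendsto hv) hc hp x hs hQ hv

theorem Crit.scale_needle {Ω : Set E} {u a : E → E} {Λ : ℝ} (hc : Crit Ω u a Λ) {b r : E → E}
    (hp : Pot b r) (x : E) {s : ℝ} (hs : 0 < s) (hv : VanOff {z | x + s • z ∈ closure Ω} r)
    (h3 : s ^ 3 * sq r ≤ 3) {Z : Set E} (hZ : IsOpen Z) (hZΩ : ∀ z ∈ Z, x + s • z ∈ Ω)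
    (h0 : ∀ᵐ z, z ∈ Z → bl u x s z + r z = 0) :
    Λ / 3 * volume.real Z * (√3 - √(s ^ 3 * sq r)) ^ 2 ≤ Λ * sq r + s * |ip r b| :=
  Pool.Agent.Helper36.Curl.scale_needle (fun _ hv => mol_tendsto hv) hc hp x hs hv h3 hZ hZΩ h0

/-! ## U: growth at the boundary -/

theorem growth {Ω : Set E} {u a : E → E} {Λ : ℝ} (hc : Crit Ω u a Λ) {r₀ c₀ : ℝ} {F : Finset E}
    (hT : Trans Ω r₀ c₀ F) : ∃ CU, 0 < CU ∧ Growth Ω u CU :=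
  Pool.Agent.Helper48.Curl.growth_of @pot_exists @liouville_compact @sqOn_bl @bl_memLp @bl_divFree
    @Crit.scale_out hc hT

/-! ## BL: blow-ups -/

theorem bl_exists {Ω : Set E} {u a : E → E} {Λ : ℝ} (hc : Crit Ω u a Λ) {r₀ c₀ CU : ℝ}
    {F : Finset E} (hT : Trans Ω r₀ c₀ F) (hG : Growth Ω u CU) {x : ℕ → E}
    (hx : ∀ n, x n ∈ frontier Ω) {s : ℕ → ℝ} (hs : ∀ n, 0 < s n) (hs0 : Tendsto s atTop (𝓝 0)) :
    ∃ σ : ℕ → ℕ, StrictMono σ ∧ ∃ (ν : E) (g : E → ℝ) (V : E → E),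
      Bl Ω u r₀ c₀ (x ∘ σ) (s ∘ σ) ν g V :=
  Pool.Agent.Helper36.Curl.bl_exists hc hT hG hx hs hs0

theorem Bl.vanish {Ω : Set E} {u a : E → E} {Λ : ℝ} (hc : Crit Ω u a Λ) {r₀ c₀ : ℝ}
    (hc₀ : 0 < c₀) {x : ℕ → E} {s : ℕ → ℝ} {ν : E} {g : E → ℝ} {V : E → E}
    (h : Bl Ω u r₀ c₀ x s ν g V) : ∀ᵐ z, g z ≤ 0 → V z = 0 :=
  Pool.Agent.Helper36.Curl.vanish hc hc₀ h

theorem Bl.divFree {Ω : Set E} {u a : E → E} {Λ : ℝ} (hc : Crit Ω u a Λ) {r₀ c₀ : ℝ}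
    {x : ℕ → E} {s : ℕ → ℝ} {ν : E} {g : E → ℝ} {V : E → E}
    (h : Bl Ω u r₀ c₀ x s ν g V) (η : E → ℝ) (hη : TestF η) : ∫ z, fderiv ℝ η z (V z) = 0 :=
  Pool.Agent.Helper36.Curl.divFree hc h η hη

theorem Bl.strong {Ω : Set E} {u a : E → E} {Λ : ℝ} (hc : Crit Ω u a Λ) {r₀ c₀ CU : ℝ}
    (hG : Growth Ω u CU) {x : ℕ → E} {s : ℕ → ℝ} {ν : E} {g : E → ℝ} {V : E → E}
    (h : Bl Ω u r₀ c₀ x s ν g V) {z : E} {ρ : ℝ} (hρ : 0 < ρ)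
    (hz : closedBall z ρ ⊆ {z | 0 < g z}) :
    Tendsto (fun n => sqOn (ball z (ρ / 2)) (fun y => bl u (x n) (s n) y - V y)) atTop (𝓝 0) ∧
      WH (ball z ρ) V :=
  Pool.Agent.Helper36.Curl.strong (fun _ hv => mol_tendsto hv) norm_mol_le hc hG h hρ hz

theorem Bl.outer {Ω : Set E} {u a : E → E} {Λ : ℝ} (hc : Crit Ω u a Λ) {r₀ c₀ CU : ℝ}
    (hG : Growth Ω u CU) {x : ℕ → E} {s : ℕ → ℝ} {ν : E} {g : E → ℝ} {V : E → E}
    (h : Bl Ω u r₀ c₀ x s ν g V) {b r : E → E} (hp : Pot b r) {Q : Set E} (hQ : IsCompact Q)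
    (hv : VanOff Q r) : -2 * ip V r ≤ volume.real (Q \ {z | 0 < g z}) + sq r :=
  Pool.Agent.Helper36.Curl.outer (fun _ hv => mol_tendsto hv) hc hG h hp hQ hv

theorem Bl.rep {Ω : Set E} {u a : E → E} {Λ : ℝ} (hc : Crit Ω u a Λ) {r₀ c₀ CU : ℝ}
    (hG : Growth Ω u CU) {x : ℕ → E} {s : ℕ → ℝ} {ν : E} {g : E → ℝ} {V : E → E}
    (h : Bl Ω u r₀ c₀ x s ν g V) : ∃ F, Rep g V F :=
  Pool.Agent.Helper36.Curl.rep (fun _ hv => mol_tendsto hv) norm_mol_le hc hG h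

/-- The tube lemma. -/
theorem tube {e q : E} (he : ‖e‖ = 1) (hq : ⟪e, q⟫ = 0) {δ ε : ℝ} (hδ : 0 < δ)
    (hδq : 2 * δ < ‖q‖) (hε : 0 < ε) :
    ∃ (b r : E → E) (Z C D : Set E), Pot b r ∧ IsOpen Z ∧ 0 < volume.real Z ∧ IsCompact C ∧
      IsCompact D ∧ Z ⊆ C ∧ VanOff (C ∪ D) r ∧
      (∀ z ∈ Z, r z = e) ∧ (∀ z ∈ Z, ‖z - ⟪e, z⟫ • e‖ < δ) ∧
      (∀ z ∈ D, ‖z - q - ⟪e, z⟫ • e‖ < δ) ∧
      (∀ z, ‖z - ⟪e, z⟫ • e‖ < δ → 0 ≤ ⟪r z, e⟫) ∧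
      (∀ z, δ ≤ ‖z - ⟪e, z⟫ • e‖ → δ ≤ ‖z - q - ⟪e, z⟫ • e‖ → ⟪r z, e⟫ = 0) ∧
      (∫ z, ⟪r z, e⟫ = 0) ∧
      volume.real C ≤ (1 + ε) * volume.real Z ∧ sq r ≤ (1 + ε) * volume.real Z :=
  Pool.Agent.Helper10.Curl.tube he hq hδ hδq hε

theorem Bl.low {Ω : Set E} {u a : E → E} {Λ : ℝ} (hc : Crit Ω u a Λ) {r₀ c₀ CU : ℝ}
    (hG : Growth Ω u CU) {x : ℕ → E} {s : ℕ → ℝ} {ν : E} {g : E → ℝ} {V F : E → E}
    (h : Bl Ω u r₀ c₀ x s ν g V) (hF : Rep g V F) {z : E} (hz : 0 < g z) : 1 ≤ ‖F z‖ :=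
  Pool.Agent.Helper43.Curl.low_of @tube cut_exists @Pot.scale @sq_scale @bl_memLp @bl_divFree
    @Crit.scale_needle @Bl.strong hc hG h hF hz

/-- The supremum of the blow-ups is attained. -/
theorem extremal {Ω : Set E} {u a : E → E} {Λ : ℝ} (hc : Crit Ω u a Λ) {r₀ c₀ CU : ℝ}
    {F₀ : Finset E} (hT : Trans Ω r₀ c₀ F₀) (hG : Growth Ω u CU) :
    ∃ ℓ : ℝ, (∀ (x : ℕ → E) (s : ℕ → ℝ) (ν : E) (g : E → ℝ) (V F : E → E),
        Bl Ω u r₀ c₀ x s ν g V → Rep g V F → ∀ z, 0 < g z → ‖F z‖ ≤ ℓ) ∧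
      ∃ (x : ℕ → E) (s : ℕ → ℝ) (ν : E) (g : E → ℝ) (V F : E → E),
        Bl Ω u r₀ c₀ x s ν g V ∧ Rep g V F ∧ ∃ z, 0 < g z ∧ ‖F z‖ = ℓ :=
  Pool.Agent.Helper75.Curl.extremal_of norm_mol_le @wk_mol @sqOn_bl @bl_memLp @bl_exists @Bl.rep hc hT hG

/-- Invariance of the limit domain in the direction of a constant field. -/
theorem limit_invariant {c₀ : ℝ} (hc : 0 < c₀) {ν : E} {g : E → ℝ} (hν : ‖ν‖ = 1)
    (hl : LipschitzWith 1 g) (h0 : g 0 = 0)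
    (ht : ∀ z, g z = 0 → ∀ t, 0 ≤ t → c₀ * t ≤ g (z + t • ν) ∧ g (z - t • ν) ≤ -(c₀ * t))
    {e : E} (hd : ∀ η, TestF η → ∫ z in {z | 0 < g z}, fderiv ℝ η z e = 0) (z : E) (t : ℝ) :
    (0 < g (z + t • e) ↔ 0 < g z) ∧ (g (z + t • e) < 0 ↔ g z < 0) :=
  Pool.Agent.Helper32.Curl.limit_invariant hc hν hl h0 ht hd z t

/-- Constant blow-ups have norm at most one. -/
theorem upper {c₀ : ℝ} (hc : 0 < c₀) {ν : E} {g : E → ℝ} (hν : ‖ν‖ = 1)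
    (hl : LipschitzWith 1 g) (h0 : g 0 = 0)
    (ht : ∀ z, g z = 0 → ∀ t, 0 ≤ t → c₀ * t ≤ g (z + t • ν) ∧ g (z - t • ν) ≤ -(c₀ * t))
    {e : E} (he : ‖e‖ = 1) {ℓ : ℝ} (hℓ : 0 < ℓ)
    (hinv : ∀ (z : E) (t : ℝ), (0 < g (z + t • e) ↔ 0 < g z) ∧ (g (z + t • e) < 0 ↔ g z < 0))
    {V : E → E} (hV : ∀ᵐ z, (0 < g z → V z = ℓ • e) ∧ (g z ≤ 0 → V z = 0))
    (hT : ∀ (b r : E → E) (Q : Set E), Pot b r → IsCompact Q → VanOff Q r →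
      -2 * ip V r ≤ volume.real (Q \ {z | 0 < g z}) + sq r) : ℓ ≤ 1 :=
  Pool.Agent.Helper41.Curl.upper_of @tube hc hν hl h0 ht he hℓ hinv hV hT

/-! ## PAIR -/

theorem pair {Ω : Set E} {u a : E → E} {Λ : ℝ} (hc : Crit Ω u a Λ) {ε : ℝ} (hε : 0 < ε) :
    ∃ A q, TestIn Ω A ∧ TestF q ∧ sq (fun x => curl A x - u x) < ε ∧
      sqOn Ω (fun x => Λ • u x - A x - gradient q x) < ε :=
  Pool.Agent.Helper77.Curl.pair_of hc (fun b r hp hv => hc.var_in hp hv) hε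

/-- Averages along segments in a convex set. -/
theorem seg_le {K : Set E} (hK : Convex ℝ K) (hKm : MeasurableSet K)
    (hKb : Bornology.IsBounded K) {f : E → ℝ} (hf : Continuous f) (h0 : ∀ x, 0 ≤ f x) :
    ∫ y in K, ∫ y' in K, ∫ t in (0 : ℝ)..1, f (y' + t • (y - y'))
      ≤ 8 * volume.real K * ∫ x in K, f x :=
  Pool.Agent.Helper37.Curl.seg_le hK hKm hKb hf h0

/-- Comparison of two averages of `H` by vertical shifts into a convex set. -/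
theorem osc_le {O K D₁ D₂ : Set E} {ν : E} (hν : ‖ν‖ = 1) {T R : ℝ} (hT : 0 ≤ T)
    (hO : MeasurableSet O) (hOb : Bornology.IsBounded O) (hK : Convex ℝ K)
    (hKm : MeasurableSet K) (hKO : K ⊆ O) (hKd : ∀ y ∈ K, ∀ y' ∈ K, ‖y - y'‖ ≤ R)
    (hD₁ : MeasurableSet D₁) (hD₂ : MeasurableSet D₂)
    (h₁ : ∀ y ∈ D₁, ∀ t ∈ Icc 0 T, y + t • ν ∈ O) (h₂ : ∀ y ∈ D₂, ∀ t ∈ Icc 0 T, y + t • ν ∈ O)
    (hK₁ : ∀ y ∈ D₁, y + T • ν ∈ K) (hK₂ : ∀ y ∈ D₂, y + T • ν ∈ K) {m : ℝ} (hm : 0 < m)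
    (hm₁ : m ≤ volume.real D₁) (hm₂ : m ≤ volume.real D₂) {H : E → ℝ} (hH : ContDiff ℝ 1 H) :
    |(⨍ y in D₁, H y) - ⨍ y in D₂, H y|
      ≤ (2 * T / m + 8 * volume.real K * R / m ^ 2) * ∫ x in O, ‖gradient H x‖ :=
  Pool.Agent.Helper37.Curl.osc_le hν hT hO hOb hK hKm hKO hKd hD₁ hD₂ h₁ h₂ hK₁ hK₂ hm hm₁ hm₂ hH

theorem Th_scale (Ω : Set E) (A : E → E) (q : E → ℝ) {s : ℝ} (hs : 0 < s) (x z : E) :
    Th Ω A q s (x + s • z) / s = Th {z | x + s • z ∈ Ω} (fun z => A (x + s • z))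
      (fun z => q (x + s • z) / s) 1 z :=
  Pool.Agent.Helper66.Curl.Th_scale Ω A q hs x z

theorem abs_Th_le {Ω : Set E} {A : E → E} {q : E → ℝ} {a b s : ℝ} (hA : ∀ y, ‖A y‖ ≤ a)
    (hq : ∀ y, |q y| ≤ b) (hs : 0 < s) (hs1 : s ≤ 1) (x : E) : |Th Ω A q s x| ≤ b + 2 * a :=
  Pool.Agent.Helper66.Curl.abs_Th_le hA hq hs hs1 x

theorem zet_contDiff {A : E → E} (hA : Test A) (ν : E) (τ : ℝ) : ContDiff ℝ 1 (zet A ν τ) :=
  Pool.Agent.Helper32.Curl.zet_contDiff hA ν τ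

theorem gradient_zet {A : E → E} (hA : Test A) (ν : E) (τ : ℝ) (z : E) :
    gradient (zet A ν τ) z
      = A z - A (z - τ • ν) + ∫ t in (0 : ℝ)..τ, cr ν (curl A (z - t • ν)) :=
  Pool.Agent.Helper32.Curl.gradient_zet hA ν τ z

theorem Bl.ell1 {Ω : Set E} {u a : E → E} {Λ : ℝ} (hc : Crit Ω u a Λ) {r₀ c₀ CU : ℝ}
    (hc₀ : 0 < c₀) (hG : Growth Ω u CU) {x : ℕ → E} {s : ℕ → ℝ} {ν : E} {g : E → ℝ} {V : E → E}
    (h : Bl Ω u r₀ c₀ x s ν g V) {e : E} (hV : ∀ᵐ z, 0 < g z → V z = e) (R : ℝ) :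
    Tendsto (fun n => ∫ z in ball 0 R ∩ {z | x n + s n • z ∈ Ω}, ‖bl u (x n) (s n) z - e‖)
      atTop (𝓝 0) :=
  Pool.Agent.Helper45.Curl.ell1_of hc hc₀ hG h hV R (fun z ρ hρ hz => (Bl.strong hc hG h hρ hz).1)
    (fun n => sqOn_bl u (x n) 0 (h.spos n) R) (fun n => bl_memLp hc.pot.memLp₂ (x n) (h.spos n))

/-- Comparison of the averaged boundary potential with an average of `q + ζ`. -/
theorem Th_le {O : Set E} (hO : MeasurableSet O) {A : E → E} (hA : Test A) {q : E → ℝ}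
    (hq : Continuous q) {ζ : E → ℝ} (hζ : ContDiff ℝ 1 ζ) {z : E}
    (h0 : ∀ y ∈ ball z 1 \ O, ζ y = 0) {m : ℝ} (hm : 0 < m)
    (hm₁ : m ≤ volume.real (ball z 1 ∩ O)) (hm₂ : m ≤ volume.real (ball z 1 \ O)) :
    |Th O A q 1 z - ⨍ y in ball z 1 ∩ O, (q y + ζ y)|
      ≤ 16 * volume.real (ball z 1) / m ^ 2 * ∫ y in ball z 1, ‖A y - gradient ζ y‖ :=
  Pool.Agent.Helper66.Curl.Th_le hO hA hq hζ h0 hm hm₁ hm₂


end Pool.Agent.Helper38.Curl
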