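import Pool.Agent.Helper38.Curl.FinD

open MeasureTheory Set Filter Topology Metric
open scoped ContDiff RealInnerProductSpace

namespace Pool.Agent.Helper38.Curl

theorem exists_muOne {Ω : Set E} (ho : IsOpen Ω) (hb : Bornology.IsBounded Ω)
    (hn : Ω.Nonempty) : ∃ μ, IsMuOne Ω μ := by
  obtain ⟨Λ, hΛ, hmax, u, a, hp, hv, hs, hh, hK⟩ := exists_maximizer ho hb hn
  exact ⟨Λ⁻¹, isMuOne_of_maximizer ho hb hΛ hmax hp hv hs hh hK⟩

theorem crit_of_min {Ω : Set E} (hΩ : LipDom Ω) (hvol : volume Ω = 1) {μ : ℝ}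
    (hμ : IsMuOne Ω μ)
    (hmin : ∀ Ω' μ', LipDom Ω' → volume Ω' = 1 → IsMuOne Ω' μ' → μ ≤ μ') :
    ∃ u a Λ, Crit Ω u a Λ := by
  have hne : ∀ {S : Set E}, volume S = 1 → S.Nonempty := by
    intro S hS
    rw [nonempty_iff_ne_empty]
    rintro rfl
    simp at hS
  obtain ⟨Λ, hΛ, hmax, u, a, hp, hv, hs, hh, hK⟩ :=
    exists_maximizer hΩ.isOpen hΩ.isBounded (hne hvol)
  have h1 := isMuOne_of_maximizer hΩ.isOpen hΩ.isBounded hΛ hmax hp hv hs hh hK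
  have hμΛ : μ = Λ⁻¹ := hμ.unique h1
  have hminA : ∀ Ω', LipDom Ω' → volume Ω' = 1 → ∀ A, TestIn Ω' A →
      ip (curl A) A ≤ Λ * sq (curl A) := by
    intro Ω' hΩ' hvol' A hA
    obtain ⟨Λ', hΛ', hmax', u', a', hp', hv', hs', hh', hK'⟩ :=
      exists_maximizer hΩ'.isOpen hΩ'.isBounded (hne hvol')
    have h2 := isMuOne_of_maximizer hΩ'.isOpen hΩ'.isBounded hΛ' hmax' hp' hv' hs' hh' hK'
    have h3 := hmin Ω' _ hΩ' hvol' h2
    rw [hμΛ] at h3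
    have h4 : Λ' ≤ Λ := (inv_le_inv₀ hΛ hΛ').1 h3
    exact (hmax' A hA).trans (mul_le_mul_of_nonneg_right h4 (sq_nonneg' _))
  obtain ⟨r₀, c₀, F, hT⟩ := trans_of_lipDom hΩ
  exact ⟨u, a, Λ,
    { isOpen := hΩ.isOpen
      bdd := hΩ.isBounded
      vol := hvol
      fr := frontier_null hΩ.isOpen hΩ.isBounded (hne hvol) hT
      pos := hΛ
      pot := hp
      van := hv
      norm := hs
      hel := hh
      inK := hK
      opt := fun C b w hC hb hw => fill hΛ hminA hC hb hw }⟩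

theorem inv_of_bl {Ω : Set E} {u a : E → E} {Λ : ℝ} (hc : Crit Ω u a Λ) {r₀ c₀ : ℝ}
    (hc₀ : 0 < c₀) {x : ℕ → E} {s : ℕ → ℝ} {ν : E} {g : E → ℝ} {V F : E → E}
    (h : Bl Ω u r₀ c₀ x s ν g V) (hF : Rep g V F) {ℓ : ℝ} (hℓ : 0 < ℓ)
    (hle : ∀ z, 0 < g z → ‖F z‖ ≤ ℓ) {z₀ : E} (hz₀ : 0 < g z₀) (heq : ‖F z₀‖ = ℓ) :
    ∃ e : E, ‖e‖ = 1 ∧ (∀ᵐ z, (0 < g z → V z = ℓ • e) ∧ (g z ≤ 0 → V z = 0)) ∧
      ∀ (z : E) (t : ℝ), (0 < g (z + t • e) ↔ 0 < g z) ∧ (g (z + t • e) < 0 ↔ g z < 0) := by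
  have hU : IsOpen {z | 0 < g z} := isOpen_lt continuous_const h.lip.continuous
  have hpre := limit_preconnected hc₀ h.nu h.lip h.g0 h.trans
  have hconst := strong_max hU hpre hF.cont hF.ae hF.mean hle hz₀ heq
  have he : ‖ℓ⁻¹ • F z₀‖ = 1 := by
    rw [norm_smul, heq, norm_inv, Real.norm_eq_abs, abs_of_pos hℓ]
    exact inv_mul_cancel₀ hℓ.ne'
  have hVe : ∀ᵐ z, (0 < g z → V z = ℓ • (ℓ⁻¹ • F z₀)) ∧ (g z ≤ 0 → V z = 0) := by
    filter_upwards [hF.ae, Bl.vanish hc hc₀ h] with z h1 h2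
    refine ⟨fun hz => ?_, h2⟩
    rw [← h1 hz, hconst z hz, smul_smul, mul_inv_cancel₀ hℓ.ne', one_smul]
  refine ⟨ℓ⁻¹ • F z₀, he, hVe, ?_⟩
  intro z t
  refine limit_invariant hc₀ h.nu h.lip h.g0 h.trans (e := ℓ⁻¹ • F z₀) ?_ z t
  intro η hη
  have h1 := Bl.divFree hc h η hη
  have h2 : ∫ z, fderiv ℝ η z (V z)
      = ∫ z in {z | 0 < g z}, ℓ * fderiv ℝ η z (ℓ⁻¹ • F z₀) := by
    rw [← integral_indicator hU.measurableSet]
    apply integral_congr_ae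
    filter_upwards [hVe] with z hz
    by_cases hg : 0 < g z
    · rw [indicator_of_mem (by exact hg), hz.1 hg, map_smul, smul_eq_mul]
    · rw [indicator_of_notMem (by exact hg), hz.2 (not_lt.1 hg), map_zero]
  rw [h2, integral_const_mul] at h1
  rcases mul_eq_zero.1 h1 with h3 | h3
  · exact absurd h3 hℓ.ne'
  · exact h3

theorem classify {Ω : Set E} {u a : E → E} {Λ : ℝ} (hc : Crit Ω u a Λ) {r₀ c₀ CU : ℝ}
    {F₀ : Finset E} (hT : Trans Ω r₀ c₀ F₀) (hG : Growth Ω u CU) {x : ℕ → E} {s : ℕ → ℝ} {ν : E}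
    {g : E → ℝ} {V : E → E} (h : Bl Ω u r₀ c₀ x s ν g V) :
    ∃ e : E, ‖e‖ = 1 ∧ (∀ᵐ z, 0 < g z → V z = e) ∧
      ∀ (z : E) (t : ℝ), (0 < g (z + t • e) ↔ 0 < g z) ∧ (g (z + t • e) < 0 ↔ g z < 0) := by
  obtain ⟨ℓ, hall, x', s', ν', g', V', F', hB', hR', z', hz', hz'ℓ⟩ := extremal hc hT hG
  have hℓ1 : 1 ≤ ℓ := by
    rw [← hz'ℓ]; exact Bl.low hc hG hB' hR' hz'
  have hℓ0 : 0 < ℓ := by linarith
  have hℓ : ℓ ≤ 1 := by
    obtain ⟨e, he, hVe, hinv⟩ := inv_of_bl hc hT.cpos hB' hR' hℓ0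
      (fun z hz => hall _ _ _ _ _ _ hB' hR' z hz) hz' hz'ℓ
    exact upper hT.cpos hB'.nu hB'.lip hB'.g0 hB'.trans he hℓ0 hinv hVe
      (fun b r Q hp hQ hv => Bl.outer hc hG hB' hp hQ hv)
  obtain ⟨F, hF⟩ := Bl.rep hc hG h
  have h1 : ∀ z, 0 < g z → ‖F z‖ ≤ 1 := fun z hz => (hall _ _ _ _ _ _ h hF z hz).trans hℓ
  have hν : 0 < g ν := by
    have := (h.trans 0 h.g0 1 zero_le_one).1
    simp only [one_smul, zero_add, mul_one] at this
    exact hT.cpos.trans_le this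
  obtain ⟨e, he, hVe, hinv⟩ := inv_of_bl hc hT.cpos h hF one_pos h1 hν
    (le_antisymm (h1 ν hν) (Bl.low hc hG h hF hν))
  refine ⟨e, he, ?_, hinv⟩
  filter_upwards [hVe] with z hz hg
  rw [hz.1 hg, one_smul]

theorem Test.bounded {A : E → E} (h : Test A) : ∃ C, ∀ y, ‖A y‖ ≤ C := by
  obtain ⟨C, hC⟩ := h.2.exists_bound_of_continuous h.1.continuous
  exact ⟨C, hC⟩

theorem TestF.bounded {q : E → ℝ} (h : TestF q) : ∃ C, ∀ y, |q y| ≤ C := by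
  obtain ⟨C, hC⟩ := h.2.exists_bound_of_continuous h.1.continuous
  exact ⟨C, hC⟩

theorem frontier_nonempty {Ω : Set E} (hb : Bornology.IsBounded Ω) (hn : Ω.Nonempty) :
    (frontier Ω).Nonempty := by
  rw [nonempty_iff_ne_empty]
  intro h
  rcases isClopen_iff.1 (isClopen_iff_frontier_eq_empty.2 h) with h1 | h1
  · exact hn.ne_empty h1
  · rw [h1] at hb
    exact NormedSpace.unbounded_univ ℝ E hb

theorem compl_nonempty {Ω : Set E} (hb : Bornology.IsBounded Ω) : (Ωᶜ).Nonempty := by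
  rw [nonempty_compl]
  rintro rfl
  exact NormedSpace.unbounded_univ ℝ E hb

theorem no_crit {Ω : Set E} {u a : E → E} {Λ : ℝ} (hc : Crit Ω u a Λ) {r₀ c₀ : ℝ}
    {F₀ : Finset E} (hT : Trans Ω r₀ c₀ F₀) : False := by
  obtain ⟨CU, -, hG⟩ := growth hc hT
  have hn : Ω.Nonempty := by
    rw [nonempty_iff_ne_empty]
    intro h
    have := hc.vol
    rw [h] at this
    simp at this
  obtain ⟨p₀, hp₀⟩ := frontier_nonempty hc.bdd hn
  set s : ℕ → ℝ := fun n => 1 / ((n : ℝ) + 1) with hs_def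
  have hs : ∀ n, 0 < s n := fun n => by simp only [hs_def]; positivity
  have hs1 : ∀ n, s n ≤ 1 := fun n => by
    simp only [hs_def]
    rw [div_le_one (by positivity)]
    have : (0 : ℝ) ≤ n := n.cast_nonneg
    linarith
  have hs0 : Tendsto s atTop (𝓝 0) := tendsto_one_div_add_atTop_nhds_zero_nat
  have hpair : ∀ n, ∃ Aq : (E → E) × (E → ℝ), TestIn Ω Aq.1 ∧ TestF Aq.2 ∧
      sq (fun x => curl Aq.1 x - u x) < s n ^ 6 ∧
      sqOn Ω (fun x => Λ • u x - Aq.1 x - gradient Aq.2 x) < s n ^ 6 := by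
    intro n
    obtain ⟨A, q, h1, h2, h3, h4⟩ := pair hc (ε := s n ^ 6) (pow_pos (hs n) 6)
    exact ⟨(A, q), h1, h2, h3, h4⟩
  choose Aq hA hq h1 h2 using hpair
  have hx : ∀ n, ∃ x ∈ frontier Ω, ∀ y ∈ frontier Ω,
      Th Ω (Aq n).1 (Aq n).2 (s n) y ≤ Th Ω (Aq n).1 (Aq n).2 (s n) x + s n ^ 2 := by
    intro n
    obtain ⟨C1, hC1⟩ := (hA n).1.bounded
    obtain ⟨C2, hC2⟩ := (hq n).bounded
    set S := (fun y => Th Ω (Aq n).1 (Aq n).2 (s n) y) '' frontier Ω with hS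
    have hSb : BddAbove S := by
      refine ⟨C2 + 2 * C1, ?_⟩
      rintro _ ⟨y, -, rfl⟩
      exact (le_abs_self _).trans (abs_Th_le hC1 hC2 (hs n) (hs1 n) y)
    have hSn : S.Nonempty := ⟨_, p₀, hp₀, rfl⟩
    have hlt : sSup S - s n ^ 2 < sSup S := by
      have := pow_pos (hs n) 2
      linarith
    obtain ⟨_, ⟨x, hx, rfl⟩, hx'⟩ := exists_lt_of_lt_csSup hSn hlt
    refine ⟨x, hx, fun y hy => ?_⟩
    have := le_csSup hSb ⟨y, hy, rfl⟩
    simp only at this hx'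
    linarith
  choose x hxf hxm using hx
  obtain ⟨σ, hσ, ν, g, V, hB⟩ := bl_exists hc hT hG hxf hs hs0
  obtain ⟨e, he, hVe, hinv⟩ := classify hc hT hG hB
  have hge : g e = 0 := by
    have h3 := hinv 0 1
    simp only [zero_add, one_smul, hB.g0, lt_irrefl, iff_false, not_lt] at h3
    exact le_antisymm h3.1 h3.2
  have hfr : ∀ n, ∃ y ∈ frontier Ω, ‖(x (σ n) + s (σ n) • e) - y‖
      = |sd Ω (x (σ n) + s (σ n) • e)| := fun n =>
    exists_frontier_dist hc.isOpen hn (compl_nonempty hc.bdd) _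
  choose y hyf hyd using hfr
  set z : ℕ → E := fun n => (s (σ n))⁻¹ • (y n - x (σ n)) with hz_def
  have hz : ∀ n, x (σ n) + s (σ n) • z n = y n := by
    intro n
    simp only [hz_def]
    rw [smul_smul, mul_inv_cancel₀ (hs _).ne', one_smul]
    abel
  have hz' : Tendsto z atTop (𝓝 e) := by
    rw [tendsto_iff_norm_sub_tendsto_zero]
    have h3 : Tendsto (fun n => sd Ω (x (σ n) + s (σ n) • e) / s (σ n)) atTop (𝓝 (g e)) :=
      (hB.conv 1).tendsto_at (by simp [he])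
    rw [hge] at h3
    have h4 := h3.abs
    rw [abs_zero] at h4
    refine h4.congr fun n => ?_
    rw [abs_div, abs_of_pos (hs (σ n)), ← hyd n]
    have h5 : z n - e = -((s (σ n))⁻¹ • ((x (σ n) + s (σ n) • e) - y n)) := by
      have h6 : (s (σ n))⁻¹ • (s (σ n) • e) = e := by
        rw [smul_smul, inv_mul_cancel₀ (hs _).ne', one_smul]
      have h7 : x (σ n) + s (σ n) • e - y n = s (σ n) • e - (y n - x (σ n)) := by abel
      rw [h7, smul_sub, h6, neg_sub]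
    rw [h5, norm_neg, norm_smul, norm_inv, Real.norm_eq_abs, abs_of_pos (hs (σ n))]
    ring
  have hlim := final_limit hc hT hG hB he hVe hinv (A := fun n => (Aq (σ n)).1)
    (q := fun n => (Aq (σ n)).2) (fun n => hA _) (fun n => hq _) (fun n => (h1 _).le)
    (fun n => (h2 _).le) (z := z) (fun n => by
      have := hyf n
      rw [← hz n] at this
      exact this) hz'
  have hle : ∀ n, (Th Ω (Aq (σ n)).1 (Aq (σ n)).2 ((s ∘ σ) n) ((x ∘ σ) n + (s ∘ σ) n • z n)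
      - Th Ω (Aq (σ n)).1 (Aq (σ n)).2 ((s ∘ σ) n) ((x ∘ σ) n)) / (s ∘ σ) n ≤ s (σ n) := by
    intro n
    simp only [Function.comp]
    rw [div_le_iff₀ (hs _), hz n]
    have := hxm (σ n) (y n) (hyf n)
    nlinarith
  have h0 : Tendsto (fun n => s (σ n)) atTop (𝓝 0) := hs0.comp hσ.tendsto_atTop
  have := le_of_tendsto_of_tendsto' hlim h0 hle
  exact absurd this (not_le.2 hc.pos)

theorem no_minimizer :
    ¬ ∃ Ω : Set E, LipDom Ω ∧ volume Ω = 1 ∧ ∃ μ, IsMuOne Ω μ ∧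
      ∀ Ω' μ', LipDom Ω' → volume Ω' = 1 → IsMuOne Ω' μ' → μ ≤ μ' := by
  rintro ⟨Ω, hΩ, hvol, μ, hμ, hmin⟩
  obtain ⟨u, a, Λ, hc⟩ := crit_of_min hΩ hvol hμ hmin
  obtain ⟨r₀, c₀, F, hT⟩ := trans_of_lipDom hΩ
  exact no_crit hc hT

theorem exists_better (Ω : Set E) (hΩ : LipDom Ω) (hvol : volume Ω = 1) :
    ∃ (Ω' : Set E) (μ μ' : ℝ), LipDom Ω' ∧ volume Ω' = 1 ∧ IsMuOne Ω μ ∧ IsMuOne Ω' μ' ∧
      μ' < μ := by
  have hn : Ω.Nonempty := by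
    rw [nonempty_iff_ne_empty]
    rintro rfl
    simp at hvol
  obtain ⟨μ, hμ⟩ := exists_muOne hΩ.isOpen hΩ.isBounded hn
  by_contra hcon
  push Not at hcon
  exact no_minimizer ⟨Ω, hΩ, hvol, μ, hμ, fun Ω' μ' h1 h2 h3 => hcon Ω' μ μ' h1 h2 hμ h3⟩

end Pool.Agent.Helper38.Curl
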