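import Pool.Agent.Helper38.Curl.ApiM

open MeasureTheory Set Filter Topology Metric
open scoped ContDiff RealInnerProductSpace

namespace Pool.Agent.Helper38.Curl

/-- The harmonic representative of a blow-up limit. -/
structure Rep (g : E → ℝ) (V F : E → E) : Prop where
  cont : ContinuousOn F {z | 0 < g z}
  ae : ∀ᵐ x, 0 < g x → F x = V x
  mean : ∀ x r, 0 < r → closedBall x r ⊆ {z | 0 < g z} → F x = mol r V x

/-- The averaged boundary potential. -/
noncomputable def Th (Ω : Set E) (A : E → E) (q : E → ℝ) (s : ℝ) (x : E) : ℝ :=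
  ⨍ y in ball x s ∩ Ω, ⨍ y' in ball x s \ Ω,
    (q y + ∫ t in (0 : ℝ)..1, ⟪A (y' + t • (y - y')), y - y'⟫)

/-- The potential of a nearly curl free field, integrated from outside of the domain. -/
noncomputable def zet (A : E → E) (ν : E) (τ : ℝ) (z : E) : ℝ :=
  ∫ t in (0 : ℝ)..τ, ⟪A (z - t • ν), ν⟫

end Pool.Agent.Helper38.Curl
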